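import Pool.Agent.Lib.MP_5e7226_co.HT.Polar

/-!
# Illumination of general convex bodies in three-dimensional space: basic definitions
-/

set_option autoImplicit false

open Set Filter Topology

namespace Pool.Agent.Lib.MP_5e7226_co.GB

/-- the space -/
abbrev E := Fin 3 → ℝ

/-- the direction `w` moves the point `y` into the interior of `L` -/
def Serve (L : Set E) (y w : E) : Prop := ∃ t : ℝ, 0 < t ∧ y + t • w ∈ interior L

/-- the point with `k`-th coordinate `s` of the segment `I k` (parallel to the axis `k`) -/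
def pt (I : Fin 3 → E) (k : Fin 3) (s : ℝ) : E := Function.update (I k) k s

/-- A convex body in the cube `[-1,1]^3` with, for every axis, a segment parallel to that axis
joining the two opposite faces of the cube. -/
structure Cfg (L : Set E) (I : Fin 3 → E) : Prop where
  conv : Convex ℝ L
  cpt : IsCompact L
  int : (interior L).Nonempty
  box : ∀ z ∈ L, ∀ k, |z k| ≤ 1
  seg : ∀ k (s : ℝ), |s| ≤ 1 → pt I k s ∈ L

/-- `pt I k σ` is the only point of `L` in the face `x_k = σ` of the cube, it lies in the open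
face, and `L` has a corner there transversally to that face. -/
def Strong (L : Set E) (I : Fin 3 → E) (k : Fin 3) (σ : ℝ) : Prop :=
  (∀ j, j ≠ k → |I k j| < 1) ∧ ∃ c : ℝ, 0 < c ∧ ∀ z ∈ L, c * ‖z - pt I k σ‖ ≤ 1 - σ * z k

/-- sign vectors -/
def IsSign (a : E) : Prop := ∀ k, a k = 1 ∨ a k = -1

/-- the point of the edge from the vertex `a` parallel to the axis `k`, at distance `2τ` from
`a` -/
def edgePt (a : E) (k : Fin 3) (τ : ℝ) : E := Function.update a k (a k * (1 - 2 * τ))

/-- the vertex box direction -/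
def bdir (I : Fin 3 → E) (z0 : E) (t : Fin 3 → ℝ) (a : E) : E :=
  ∑ k, t k • (pt I k (a k) - a) + (1 - ∑ k, t k) • (z0 - a)

/-- `L` is illuminated up to the points with closure cone condition: the backward cone at `x` -/
def back (L : Set E) (x : E) : Set E := {v | ∃ s : ℝ, 0 ≤ s ∧ ∃ z ∈ L, v = s • (x - z)}

/-! ### vertices of the cube -/

/-- the bit `k` of a vertex -/
def bit (v : Fin 8) (k : Fin 3) : Bool := v.val.testBit k.val

/-- the neighbour in the direction of the axis `k` -/
def flip (v : Fin 8) (k : Fin 3) : Fin 8 := v ^^^ (![1, 2, 4] k)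

/-- sign of a bit -/
def sb (b : Bool) : ℝ := if b then -1 else 1

/-- the vertex as a sign vector -/
def sg (v : Fin 8) : E := fun k => sb (bit v k)

lemma sb_or (b : Bool) : sb b = 1 ∨ sb b = -1 := by cases b <;> simp [sb]

lemma sb_not (b : Bool) : sb (!b) = -sb b := by cases b <;> simp [sb]

lemma sb_sq (b : Bool) : sb b * sb b = 1 := by cases b <;> simp [sb]

lemma abs_sb (b : Bool) : |sb b| = 1 := by cases b <;> simp [sb]

lemma isSign_sg (v : Fin 8) : IsSign (sg v) := fun _ => sb_or _

lemma bit_flip_self (v : Fin 8) (k : Fin 3) : bit (flip v k) k = !bit v k := by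
  revert v k; decide

lemma bit_flip_ne (v : Fin 8) {k j : Fin 3} (h : j ≠ k) : bit (flip v k) j = bit v j := by
  revert v k j; decide

lemma flip_flip (v : Fin 8) (k : Fin 3) : flip (flip v k) k = v := by
  revert v k; decide

lemma bit_ext {v w : Fin 8} (h : ∀ k, bit v k = bit w k) : v = w := by
  revert v w; decide

/-! ### coordinates -/

lemma third {i j k : Fin 3} (hij : i ≠ j) (hik : i ≠ k) (hjk : j ≠ k) (l : Fin 3) :
    l = i ∨ l = j ∨ l = k := by
  revert i j k l; decide

lemma ext3 {i j k : Fin 3} (hij : i ≠ j) (hik : i ≠ k) (hjk : j ≠ k) {u v : E}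
    (h1 : u i = v i) (h2 : u j = v j) (h3 : u k = v k) : u = v := by
  funext l
  rcases third hij hik hjk l with rfl | rfl | rfl <;> assumption

lemma sum3 {M : Type*} [AddCommMonoid M] {i j k : Fin 3} (hij : i ≠ j) (hik : i ≠ k)
    (hjk : j ≠ k) (f : Fin 3 → M) : ∑ l, f l = f i + f j + f k := by
  have h : (Finset.univ : Finset (Fin 3)) = {i, j, k} := by
    revert i j k; decide
  rw [h, Finset.sum_insert (by simp [hij, hik]), Finset.sum_insert (by simp [hjk]),
    Finset.sum_singleton, add_assoc]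

@[simp] lemma pt_self (I : Fin 3 → E) (k : Fin 3) (s : ℝ) : pt I k s k = s := by simp [pt]

lemma pt_ne (I : Fin 3 → E) {k j : Fin 3} (h : j ≠ k) (s : ℝ) : pt I k s j = I k j := by
  simp [pt, h]

@[simp] lemma edgePt_self (a : E) (k : Fin 3) (τ : ℝ) : edgePt a k τ k = a k * (1 - 2 * τ) := by
  simp [edgePt]

lemma edgePt_ne (a : E) {k j : Fin 3} (h : j ≠ k) (τ : ℝ) : edgePt a k τ j = a j := by
  simp [edgePt, h]

lemma sg_flip_self (v : Fin 8) (k : Fin 3) : sg (flip v k) k = -sg v k := by
  simp only [sg, bit_flip_self, sb_not]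

lemma sg_flip_ne (v : Fin 8) {k j : Fin 3} (h : j ≠ k) : sg (flip v k) j = sg v j := by
  simp only [sg, bit_flip_ne v h]

lemma edgePt_flip (v : Fin 8) (k : Fin 3) (τ : ℝ) :
    edgePt (sg (flip v k)) k τ = edgePt (sg v) k (1 - τ) := by
  funext j
  by_cases h : j = k
  · subst h
    rw [edgePt_self, edgePt_self, sg_flip_self]; ring
  · rw [edgePt_ne _ h, edgePt_ne _ h, sg_flip_ne _ h]

/-! ### the serve relation -/

/-- Explicit combinations: feasible directions at `x`. -/
def Feas (L : Set E) (x v : E) : Prop := ∃ s : ℝ, 0 ≤ s ∧ ∃ z ∈ L, v = s • (z - x)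

lemma Feas.mk {L : Set E} {x z : E} (hz : z ∈ L) {c : ℝ} (hc : 0 ≤ c) : Feas L x (c • (z - x)) :=
  ⟨c, hc, z, hz, rfl⟩

lemma Feas.add {L : Set E} (hL : Convex ℝ L) {x u v : E} (hu : Feas L x u) (hv : Feas L x v) :
    Feas L x (u + v) := by
  obtain ⟨s, hs, y, hy, rfl⟩ := hu
  obtain ⟨t, ht, z, hz, rfl⟩ := hv
  by_cases hst : s + t = 0
  · have h1 : s = 0 := by linarith
    have h2 : t = 0 := by linarith
    exact ⟨0, le_rfl, y, hy, by simp [h1, h2]⟩
  · have hpos : 0 < s + t := lt_of_le_of_ne (by linarith) (Ne.symm hst)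
    refine ⟨s + t, hpos.le, (s / (s + t)) • y + (t / (s + t)) • z,
      hL hy hz (by positivity) (by positivity) (by field_simp), ?_⟩
    funext i
    simp only [Pi.add_apply, Pi.smul_apply, Pi.sub_apply, smul_eq_mul]
    field_simp
    ring

lemma serve_mk {L : Set E} {x z : E} (hz : z ∈ interior L) {c : ℝ} (hc : 0 < c) :
    Serve L x (c • (z - x)) := by
  refine ⟨1 / c, by positivity, ?_⟩
  rw [smul_smul, one_div, inv_mul_cancel₀ hc.ne', one_smul]
  simpa using hz

lemma Serve.add {L : Set E} (hL : Convex ℝ L) {x w v : E} (hw : Serve L x w) (hv : Feas L x v) :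
    Serve L x (w + v) := by
  obtain ⟨t, ht, hi⟩ := hw
  obtain ⟨s, hs, z, hz, rfl⟩ := hv
  -- x + r (w + s (z - x)) with 1/r = 1/t + s
  have hpos : 0 < 1 / t + s := by positivity
  refine ⟨1 / (1 / t + s), by positivity, ?_⟩
  have key := hL.combo_interior_self_mem_interior hi hz
    (a := (1 / t) / (1 / t + s)) (b := s / (1 / t + s)) (by positivity) (by positivity)
    (by field_simp)
  convert key using 1
  funext i
  simp only [Pi.add_apply, Pi.smul_apply, Pi.sub_apply, smul_eq_mul]
  field_simp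
  ring

end Pool.Agent.Lib.MP_5e7226_co.GB
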