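import Pool.Agent.Lib.MP_5e7226_co.GB.Sel3

/-!
# Every convex body in three-dimensional space is illuminated by 13 directions
-/

set_option autoImplicit false

open Set Filter Topology

namespace Pool.Agent.Lib.MP_5e7226_co.GB

/-- translation invariance of illumination -/
lemma illum_trans {W : Type*} [AddCommGroup W] [Module ℝ W] [TopologicalSpace W]
    [ContinuousAdd W] {L : Set W} {N : ℕ} (a : W)
    (h : Illum ((fun x => x + a) '' L) N) : Illum L N := by
  obtain ⟨d, hd⟩ := h
  refine ⟨d, fun y hy => ?_⟩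
  obtain ⟨i, t, ht, hi⟩ := hd (y + a) ⟨y, hy, rfl⟩
  refine ⟨i, t, ht, ?_⟩
  have h1 : (fun x => x + a) '' interior L = interior ((fun x => x + a) '' L) :=
    (Homeomorph.addRight a).image_interior L
  rw [← h1] at hi
  obtain ⟨z, hz, hze⟩ := hi
  have : z = y + t • d i := by
    simp only at hze
    have h2 : z + a = (y + t • d i) + a := by rw [hze]; abel
    exact add_right_cancel h2
  rwa [← this]

theorem illum13_coord {S : Set E} (hc : Convex ℝ S) (hk : IsCompact S)
    (hi : (interior S).Nonempty) : Illum S 13 := by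
  obtain ⟨T, c, I, hC, ho⟩ := auerbach hc hk hi
  exact Illum.of_image T (illum_trans c (illum_cfg hC ho))

/-- the illumination theorem -/
theorem illum13 {W : Type*} [NormedAddCommGroup W] [NormedSpace ℝ W] [FiniteDimensional ℝ W]
    (hdim : Module.finrank ℝ W = 3) {L : Set W} (hc : Convex ℝ L) (hk : IsCompact L)
    (hi : (interior L).Nonempty) : Illum L 13 := by
  let T : W ≃L[ℝ] E := ContinuousLinearEquiv.ofFinrankEq (by rw [hdim]; simp)
  apply Illum.of_image T
  apply illum13_coord
  · exact hc.linear_image T.toLinearEquiv.toLinearMap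
  · exact hk.image T.continuous
  · obtain ⟨x, hx⟩ := hi
    exact ⟨_, T.toHomeomorph.isOpenMap.image_interior_subset L ⟨x, hx, rfl⟩⟩

/-- the separation form, for a body containing the origin in its interior -/
theorem sep13 {V : Type*} [NormedAddCommGroup V] [NormedSpace ℝ V]
    [FiniteDimensional ℝ V] (hdim : Module.finrank ℝ V = 3) {K : Set V}
    (hK : IsCompact K) (h0 : (0 : V) ∈ interior K) : Sep K 13 := by
  apply Sep.of_illum_polar hK h0
  have hdual : Module.finrank ℝ (V →L[ℝ] ℝ) = 3 := by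
    rw [← hdim, ← Subspace.dual_finrank_eq (K := ℝ) (V := V)]
    exact (LinearMap.toContinuousLinearMap (𝕜 := ℝ) (E := V) (F' := ℝ)).symm.finrank_eq
  exact illum13 hdual (polarBody_convex K)
    (Metric.isCompact_of_isClosed_isBounded (polarBody_closed K) (polarBody_bounded h0))
    ⟨0, polarBody_zero_mem_interior hK⟩

/-- from directions to exterior points -/
theorem exterior_points {V : Type*} [NormedAddCommGroup V] [NormedSpace ℝ V] [Nontrivial V]
    {K : Set V} (hK : IsCompact K) {N : ℕ} (h : Illum K N) :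
    ∃ p : Fin N → V, (∀ i, p i ∉ K) ∧ ∀ q ∈ frontier K, ∃ i, ∃ t : ℝ, 1 < t ∧
      p i + t • (q - p i) ∈ interior K := by
  classical
  obtain ⟨d, hd⟩ := h
  have hfr : IsCompact (frontier K) :=
    hK.of_isClosed_subset isClosed_frontier hK.isClosed.frontier_subset
  -- uniform parameter
  have key : ∀ᶠ ε : ℝ in 𝓝 0, ∀ q ∈ frontier K, ∃ i, d i ≠ 0 ∧ ∃ t : ℝ, 0 < t ∧
      q + t • (d i + ε • q) ∈ interior K := by
    apply hfr.eventually_forall_of_forall_eventually
    intro q hq
    obtain ⟨i, t, ht, hi⟩ := hd q (hK.isClosed.frontier_subset hq)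
    have h0 : d i ≠ 0 := by
      intro h0
      rw [h0, smul_zero, add_zero] at hi
      exact hq.2 hi
    have hc : Continuous (fun z : ℝ × V => z.2 + t • (d i + z.1 • z.2)) := by fun_prop
    have hev : ∀ᶠ z : ℝ × V in 𝓝 (0, q), z.2 + t • (d i + z.1 • z.2) ∈ interior K := by
      apply hc.continuousAt.eventually_mem
      simp only [zero_smul, add_zero]
      exact isOpen_interior.mem_nhds hi
    filter_upwards [hev] with z hz
    exact ⟨i, h0, t, ht, hz⟩
  -- the points are outside of `K`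
  obtain ⟨B, hB⟩ := hK.isBounded.exists_norm_le
  have hout : ∀ i, ∀ᶠ ε : ℝ in 𝓝[>] 0, d i ≠ 0 → -((1 / ε) • d i) ∉ K := by
    intro i
    by_cases h0 : d i = 0
    · exact Filter.Eventually.of_forall fun ε h => absurd h0 h
    have hn : 0 < ‖d i‖ := norm_pos_iff.2 h0
    have hpos : 0 < ‖d i‖ / (|B| + 1) := by positivity
    filter_upwards [Ioo_mem_nhdsGT hpos] with ε hε _ hmem
    have h1 := hB _ hmem
    rw [norm_neg, norm_smul, Real.norm_eq_abs, abs_of_pos (by have := hε.1; positivity)] at h1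
    have h2 := hε.2
    rw [lt_div_iff₀ (by positivity)] at h2
    have h3 : ‖d i‖ ≤ ε * B := by
      have := hε.1
      rw [one_div, inv_mul_le_iff₀ this] at h1
      exact h1
    have h4 := le_abs_self B
    nlinarith [hε.1]
  obtain ⟨ε, ⟨h1, h2⟩, h3⟩ :=
    (((key.filter_mono nhdsWithin_le_nhds : ∀ᶠ ε : ℝ in 𝓝[>] 0, _).and
      (eventually_all.2 hout)).and self_mem_nhdsWithin).exists
  have hε : 0 < ε := h3
  -- some exterior point
  obtain ⟨e, he⟩ : ∃ e : V, e ∉ K := by
    obtain ⟨v, hv⟩ := exists_ne (0 : V)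
    have hn : 0 < ‖v‖ := norm_pos_iff.2 hv
    refine ⟨((|B| + 1) / ‖v‖) • v, fun hmem => ?_⟩
    have h1 := hB _ hmem
    rw [norm_smul, Real.norm_eq_abs, abs_of_pos (by positivity), div_mul_cancel₀ _ hn.ne'] at h1
    have := le_abs_self B
    linarith
  refine ⟨fun i => if d i = 0 then e else -((1 / ε) • d i), ?_, ?_⟩
  · intro i
    by_cases h0 : d i = 0
    · simpa [h0] using he
    · simp only [h0, if_false]
      exact h2 i h0
  · intro q hq
    obtain ⟨i, h0, t, ht, hi⟩ := h1 q hq
    refine ⟨i, 1 + t * ε, by nlinarith, ?_⟩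
    simp only [h0, if_false]
    convert hi using 1
    have : t * ε * (1 / ε) = t := by field_simp
    rw [sub_neg_eq_add, add_smul, one_smul, smul_add, smul_add, smul_smul, this, smul_smul]
    abel

theorem final_separation (K : Set (EuclideanSpace ℝ (Fin 3))) (hK : IsCompact K)
    (o : EuclideanSpace ℝ (Fin 3)) (ho : o ∈ interior K) :
    ∃ w : Fin 13 → EuclideanSpace ℝ (Fin 3), ∃ b : Fin 13 → ℝ,
      ∀ u x₀ : EuclideanSpace ℝ (Fin 3), u ≠ 0 → x₀ ∈ K →
        (∀ y ∈ K, inner ℝ u y ≤ inner ℝ u x₀) →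
          ∃ i, inner ℝ (w i) o < b i ∧
            ∀ x ∈ K, inner ℝ u x = inner ℝ u x₀ → b i < inner ℝ (w i) x := by
  refine sep_to_hyperplanes hK o ?_
  have hdim : Module.finrank ℝ (EuclideanSpace ℝ (Fin 3)) = 3 := by simp
  refine sep13 hdim (hK.image (continuous_id.sub continuous_const)) ?_
  exact (Homeomorph.subRight o).isOpenMap.image_interior_subset K ⟨o, ho, by simp⟩

theorem final_illumination (K : Set (EuclideanSpace ℝ (Fin 3))) (hc : Convex ℝ K)
    (hK : IsCompact K) (hi : (interior K).Nonempty) :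
    ∃ p : Fin 13 → EuclideanSpace ℝ (Fin 3), (∀ i, p i ∉ K) ∧ ∀ q ∈ frontier K, ∃ i, ∃ t : ℝ,
      1 < t ∧ p i + t • (q - p i) ∈ interior K :=
  exterior_points hK (illum13 (by simp) hc hK hi)

end Pool.Agent.Lib.MP_5e7226_co.GB
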