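import Pool.Agent.Lib.MP_5e7226_co.GB.Base

/-!
# Reduction to the edges of the cube
-/

set_option autoImplicit false

open Set Filter Topology

namespace Pool.Agent.Lib.MP_5e7226_co.GB

/-- G1a -/
theorem serve_of_closure {L : Set E} (hL : Convex ℝ L) {x y w : E}
    (hy : y - x ∈ closure (back L x)) (h : Serve L y w) : Serve L x w := by
  obtain ⟨t, ht, hi⟩ := h
  have hopen : IsOpen {d : E | x + d + t • w ∈ interior L} := by
    apply isOpen_interior.preimage
    fun_prop
  obtain ⟨d, hd1, s, hs, z, hz, rfl⟩ := mem_closure_iff.1 hy _ hopen (by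
    show x + (y - x) + t • w ∈ interior L
    rwa [add_sub_cancel])
  have hd1 : x + s • (x - z) + t • w ∈ interior L := hd1
  have hpos : 0 < 1 + s := by linarith
  refine ⟨t / (1 + s), by positivity, ?_⟩
  have key := hL.combo_interior_self_mem_interior hd1 hz
    (a := 1 / (1 + s)) (b := s / (1 + s)) (by positivity) (by positivity)
    (by field_simp)
  convert key using 1
  funext i
  simp only [Pi.add_apply, Pi.smul_apply, Pi.sub_apply, smul_eq_mul]
  field_simp
  ring

/-- sums in the closed cone -/
lemma g1_add {L : Set E} (hL : Convex ℝ L) {x u v : E} (hu : u ∈ closure (back L x))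
    (hv : v ∈ closure (back L x)) : u + v ∈ closure (back L x) := by
  apply map_mem_closure₂ continuous_add hu hv
  rintro a ⟨s, hs, y, hy, rfl⟩ b ⟨t, ht, z, hz, rfl⟩
  obtain ⟨r, hr, p, hp, e⟩ := (Feas.mk (x := x) hy hs).add hL (Feas.mk (x := x) hz ht)
  refine ⟨r, hr, p, hp, ?_⟩
  have h1 : s • (x - y) + t • (x - z) = -(s • (y - x) + t • (z - x)) := by
    funext i
    simp only [Pi.add_apply, Pi.smul_apply, Pi.sub_apply, smul_eq_mul, Pi.neg_apply]
    ring
  rw [h1, e]
  funext i
  simp only [Pi.smul_apply, Pi.sub_apply, smul_eq_mul, Pi.neg_apply]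
  ring

lemma g1_smul {L : Set E} {x u : E} (hu : u ∈ closure (back L x)) {c : ℝ} (hc : 0 ≤ c) :
    c • u ∈ closure (back L x) := by
  apply map_mem_closure (f := fun u : E => c • u) (by fun_prop) hu
  rintro a ⟨s, hs, y, hy, rfl⟩
  exact ⟨c * s, by positivity, y, hy, by simp only [smul_smul]⟩

lemma g1_mem {L : Set E} {x z : E} (hz : z ∈ L) : x - z ∈ closure (back L x) :=
  subset_closure ⟨1, by norm_num, z, hz, by rw [one_smul]⟩

/-- moving along a ray until one more coordinate has modulus one -/
lemma g1_ray {y v : E} (hy : ∀ k, |y k| ≤ 1) (hv : v ≠ 0) (h0 : ∀ k, |y k| = 1 → v k = 0) :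
    ∃ t : ℝ, 0 ≤ t ∧ (∀ k, |(y + t • v) k| ≤ 1) ∧ (∀ k, |y k| = 1 → (y + t • v) k = y k) ∧
      ∃ k, |y k| ≠ 1 ∧ |(y + t • v) k| = 1 := by
  let F : Finset (Fin 3) := Finset.univ.filter fun k => v k ≠ 0
  have hF : F.Nonempty := by
    obtain ⟨k, hk⟩ := Function.ne_iff.1 hv
    exact ⟨k, by simpa [F] using hk⟩
  obtain ⟨k, hk, hmin⟩ := F.exists_min_image (fun k => (1 - SignType.sign (v k) * y k) / |v k|) hF
  have hvk : v k ≠ 0 := by simpa [F] using hk
  set t : ℝ := (1 - SignType.sign (v k) * y k) / |v k| with ht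
  have hsg : ∀ l, v l ≠ 0 → ((SignType.sign (v l) : ℝ) = 1 ∧ |v l| = v l) ∨
      ((SignType.sign (v l) : ℝ) = -1 ∧ |v l| = -v l) := by
    intro l hl
    rcases lt_or_gt_of_ne hl with h | h
    · right
      exact ⟨by rw [sign_neg h]; simp, abs_of_neg h⟩
    · left
      exact ⟨by rw [sign_pos h]; simp, abs_of_pos h⟩
  have ht0 : 0 ≤ t := by
    rw [ht]
    apply div_nonneg _ (abs_nonneg _)
    have := abs_le.1 (hy k)
    rcases hsg k hvk with h | h <;> rw [h.1] <;> linarith
  refine ⟨t, ht0, ?_, ?_, k, fun h => hvk (h0 k h), ?_⟩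
  · intro l
    simp only [Pi.add_apply, Pi.smul_apply, smul_eq_mul]
    have hyl := abs_le.1 (hy l)
    by_cases hl : v l = 0
    · rw [hl, mul_zero, add_zero]
      exact hy l
    · have h1 := hmin l (by simpa [F] using hl)
      have hpos : 0 < |v l| := abs_pos.2 hl
      have h2 : t * |v l| ≤ 1 - SignType.sign (v l) * y l := by
        rwa [le_div_iff₀ hpos] at h1
      have h3 : 0 ≤ t * |v l| := by positivity
      rw [abs_le]
      rcases hsg l hl with h | h
      · rw [h.1, h.2] at h2
        rw [h.2] at h3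
        constructor <;> linarith
      · rw [h.1, h.2] at h2
        rw [h.2] at h3
        constructor <;> linarith
  · intro l hl
    simp only [Pi.add_apply, Pi.smul_apply, smul_eq_mul]
    rw [h0 l hl, mul_zero, add_zero]
  · simp only [Pi.add_apply, Pi.smul_apply, smul_eq_mul]
    have hpos : 0 < |v k| := abs_pos.2 hvk
    have h2 : t * |v k| = 1 - SignType.sign (v k) * y k := by
      rw [ht]
      field_simp
    rcases hsg k hvk with h | h
    · rw [h.1, h.2] at h2
      have : y k + t * v k = 1 := by linarith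
      rw [this, abs_one]
    · rw [h.1, h.2] at h2
      have : y k + t * v k = -1 := by linarith
      rw [this, abs_neg, abs_one]

lemma g1_bits (β : Fin 3 → Bool) : ∃ v : Fin 8, ∀ k, bit v k = β k := by
  have h : ∀ b0 b1 b2 : Bool, ∃ v : Fin 8, bit v 0 = b0 ∧ bit v 1 = b1 ∧ bit v 2 = b2 := by
    decide
  obtain ⟨v, h0, h1, h2⟩ := h (β 0) (β 1) (β 2)
  refine ⟨v, fun k => ?_⟩
  fin_cases k
  · exact h0
  · exact h1
  · exact h2

lemma g1_sb {r : ℝ} (h : |r| = 1) : ∃ b, r = sb b := by
  rcases eq_or_eq_neg_of_abs_eq h with h | h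
  · exact ⟨false, by simp [sb, h]⟩
  · exact ⟨true, by simp [sb, h]⟩

lemma g1_edge {y : E} (hy : ∀ k, |y k| ≤ 1) {i j : Fin 3} (hij : i ≠ j) (hi : |y i| = 1)
    (hj : |y j| = 1) : ∃ v k τ, 0 ≤ τ ∧ τ ≤ 1 ∧ edgePt (sg v) k τ = y := by
  have h : ∀ i j : Fin 3, i ≠ j → ∃ k, i ≠ k ∧ j ≠ k := by decide
  obtain ⟨k, hik, hjk⟩ := h i j hij
  obtain ⟨bi, hbi⟩ := g1_sb hi
  obtain ⟨bj, hbj⟩ := g1_sb hj
  obtain ⟨v, hv⟩ := g1_bits fun l => if l = i then bi else if l = j then bj else false
  have hk := abs_le.1 (hy k)
  refine ⟨v, k, (1 - y k) / 2, by linarith, by linarith, ?_⟩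
  apply ext3 hij hik hjk
  · rw [edgePt_ne _ hik, hbi, sg, hv]
    simp
  · rw [edgePt_ne _ hjk, hbj, sg, hv]
    simp [hij.symm]
  · rw [edgePt_self, sg, hv]
    simp only [hik.symm, hjk.symm, if_false]
    simp [sb]
    ring

/-- G1b -/
theorem reduction {L : Set E} {I : Fin 3 → E} (h : Cfg L I) {x : E} (hx : x ∈ L) :
    (∃ k s, Strong L I k (sb s) ∧ x = pt I k (sb s)) ∨
      ∃ v k τ, 0 ≤ τ ∧ τ ≤ 1 ∧ edgePt (sg v) k τ - x ∈ closure (back L x) := by
  have hxb := h.box x hx
  have h00 : (0 : E) ∈ closure (back L x) := by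
    have := g1_mem (x := x) hx
    rwa [sub_self] at this
  -- a point with two coordinates of modulus one
  have two : ∀ y : E, (∀ k, |y k| ≤ 1) → y - x ∈ closure (back L x) → ∀ i j : Fin 3, i ≠ j →
      |y i| = 1 → |y j| = 1 →
      ∃ v k τ, 0 ≤ τ ∧ τ ≤ 1 ∧ edgePt (sg v) k τ - x ∈ closure (back L x) := by
    intro y hy hyx i j hij hi hj
    obtain ⟨v, k, τ, h0, h1, e⟩ := g1_edge hy hij hi hj
    exact ⟨v, k, τ, h0, h1, by rwa [e]⟩
  have hpt : ∀ (k : Fin 3) (b : Bool), pt I k (sb b) ∈ L := fun k b =>
    h.seg k _ (abs_sb b).le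
  by_cases hA : ∃ k, |x k| = 1
  · obtain ⟨k, hk⟩ := hA
    obtain ⟨b, hb⟩ := g1_sb hk
    by_cases h2 : ∃ j, j ≠ k ∧ |x j| = 1
    · obtain ⟨j, hjk, hj⟩ := h2
      right
      exact two x hxb (by rwa [sub_self]) j k hjk hj hk
    push Not at h2
    by_cases hv : ∃ v ∈ closure (back L x), v ≠ 0 ∧ v k = 0
    · obtain ⟨v, hvC, hv0, hvk⟩ := hv
      obtain ⟨t, ht, t1, t2, l, t3, t4⟩ := g1_ray hxb hv0 (fun l hl => by
        by_cases hlk : l = k
        · rw [hlk, hvk]
        · exact absurd hl (h2 l hlk))
      right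
      refine two _ t1 ?_ l k ?_ t4 ?_
      · rw [add_sub_cancel_left]
        exact g1_smul hvC ht
      · rintro rfl
        exact t3 hk
      · rw [t2 k hk, hk]
    · push Not at hv
      have hxe : x = pt I k (sb b) := by
        by_contra hne
        apply hv (x - pt I k (sb b)) (g1_mem (hpt k b)) (sub_ne_zero.2 hne)
        rw [Pi.sub_apply, pt_self, hb, sub_self]
      left
      refine ⟨k, b, ⟨?_, ?_⟩, hxe⟩
      · intro j hj
        have e : I k j = x j := by rw [hxe, pt_ne _ hj]
        rw [e]
        exact lt_of_le_of_ne (hxb j) (h2 j hj)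
      · rw [← hxe]
        have hnn : ∀ v ∈ closure (back L x), 0 ≤ sb b * v k := by
          intro v hv'
          have hcl : IsClosed {v : E | 0 ≤ sb b * v k} :=
            isClosed_le continuous_const (by fun_prop)
          apply closure_minimal _ hcl hv'
          rintro _ ⟨s, hs, z, hz, rfl⟩
          show 0 ≤ sb b * (s • (x - z)) k
          have hz1 := abs_le.1 (h.box z hz k)
          simp only [Pi.smul_apply, Pi.sub_apply, smul_eq_mul]
          rw [hb]
          rcases sb_or b with e | e <;> rw [e] <;> nlinarith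
        have hcomp : IsCompact (closure (back L x) ∩ Metric.sphere (0 : E) 1) :=
          (isCompact_sphere (0 : E) 1).inter_left isClosed_closure
        have hmemS : ∀ z ∈ L, z ≠ x →
            ‖x - z‖⁻¹ • (x - z) ∈ closure (back L x) ∩ Metric.sphere (0 : E) 1 := by
          intro z hz hzx
          refine ⟨g1_smul (g1_mem hz) (by positivity), ?_⟩
          rw [mem_sphere_zero_iff_norm, norm_smul, norm_inv, norm_norm]
          exact inv_mul_cancel₀ (norm_ne_zero_iff.2 (sub_ne_zero.2 hzx.symm))
        rcases (closure (back L x) ∩ Metric.sphere (0 : E) 1).eq_empty_or_nonempty with hS | hS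
        · refine ⟨1, one_pos, fun z hz => ?_⟩
          have hzx : z = x := by
            by_contra hzx
            have := hmemS z hz hzx
            rw [hS] at this
            exact this
          rw [hzx, sub_self, norm_zero, mul_zero, hb, sb_sq, sub_self]
        · obtain ⟨v0, hv0, hmin⟩ := hcomp.exists_isMinOn hS
            (f := fun v : E => sb b * v k) (by fun_prop)
          have hc : 0 < sb b * v0 k := by
            apply lt_of_le_of_ne (hnn v0 hv0.1)
            intro h0
            have h1 : v0 k = 0 := by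
              rcases mul_eq_zero.1 h0.symm with e | e
              · exfalso
                have := sb_sq b
                rw [e] at this
                norm_num at this
              · exact e
            have h2' : v0 ≠ 0 := by
              rintro rfl
              have := hv0.2
              rw [mem_sphere_zero_iff_norm, norm_zero] at this
              norm_num at this
            exact hv v0 hv0.1 h2' h1
          refine ⟨sb b * v0 k, hc, fun z hz => ?_⟩
          by_cases hzx : z = x
          · rw [hzx, sub_self, norm_zero, mul_zero, hb, sb_sq, sub_self]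
          · have h1 := hmin (hmemS z hz hzx)
            have h1 : sb b * v0 k ≤ sb b * (‖x - z‖⁻¹ • (x - z)) k := h1
            have hpos : 0 < ‖x - z‖ := norm_pos_iff.2 (sub_ne_zero.2 (Ne.symm hzx))
            rw [Pi.smul_apply, Pi.sub_apply, smul_eq_mul] at h1
            rw [norm_sub_rev]
            have h3 : sb b * v0 k * ‖x - z‖ ≤ sb b * (‖x - z‖⁻¹ * (x k - z k)) * ‖x - z‖ :=
              mul_le_mul_of_nonneg_right h1 hpos.le
            have h4 : sb b * (‖x - z‖⁻¹ * (x k - z k)) * ‖x - z‖ = sb b * (x k - z k) := by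
              field_simp
            rw [h4] at h3
            have h5 : sb b * (x k - z k) = 1 - sb b * z k := by
              rw [mul_sub, hb, sb_sq]
            linarith
  · push Not at hA
    right
    have hA' : ∀ k, |x k| < 1 := fun k => lt_of_le_of_ne (hxb k) (hA k)
    have hv1 : x - pt I 0 (sb false) ∈ closure (back L x) := g1_mem (hpt 0 false)
    have hv0 : x - pt I 0 (sb false) ≠ 0 := by
      intro e
      have := congrFun e 0
      rw [Pi.sub_apply, pt_self, Pi.zero_apply, sub_eq_zero] at this
      apply hA 0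
      rw [this, abs_sb]
    obtain ⟨t, ht, t1, -, k, -, t4⟩ := g1_ray hxb hv0 (fun l hl => absurd hl (hA l))
    set y : E := x + t • (x - pt I 0 (sb false)) with hy
    have hyC : y - x ∈ closure (back L x) := by
      rw [hy, add_sub_cancel_left]
      exact g1_smul hv1 ht
    by_cases h2 : ∃ j, j ≠ k ∧ |y j| = 1
    · obtain ⟨j, hjk, hj⟩ := h2
      exact two y t1 hyC j k hjk hj t4
    push Not at h2
    obtain ⟨b, hb⟩ := g1_sb t4
    -- a direction in the cone with vanishing coordinate
    obtain ⟨v, hvC, hvne, hvk⟩ : ∃ v ∈ closure (back L x), v ≠ 0 ∧ v k = 0 := by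
      have hxk := abs_lt.1 (hA' k)
      have hd : 0 < sb b * (y - x) k := by
        rw [Pi.sub_apply, mul_sub, hb, sb_sq]
        rcases sb_or b with e | e <;> rw [e] <;> linarith
      have hd' : sb b * (x - pt I k (sb b)) k < 0 := by
        rw [Pi.sub_apply, pt_self, mul_sub, sb_sq]
        rcases sb_or b with e | e <;> rw [e] <;> linarith
      have hex : ∀ k : Fin 3, ∃ j, j ≠ k := by decide
      obtain ⟨j, hj⟩ := hex k
      have hsb0 : sb b ≠ 0 := by
        intro e
        have := sb_sq b
        rw [e] at this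
        norm_num at this
      -- a cone element killing the k-th coordinate
      obtain ⟨a, haC, hak⟩ : ∃ a ∈ closure (back L x), (x k - I j k) + a k = 0 := by
        rcases le_total (sb b * (x k - I j k)) 0 with hβ | hβ
        · refine ⟨(-(sb b * (x k - I j k)) / (sb b * (y - x) k)) • (y - x),
            g1_smul hyC (div_nonneg (by linarith) hd.le), ?_⟩
          rw [Pi.smul_apply, smul_eq_mul]
          have hne : (y - x) k ≠ 0 := by
            intro e
            rw [e, mul_zero] at hd
            exact lt_irrefl _ hd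
          field_simp
          ring
        · refine ⟨((sb b * (x k - I j k)) / -(sb b * (x - pt I k (sb b)) k)) •
            (x - pt I k (sb b)), g1_smul (g1_mem (hpt k b)) (div_nonneg hβ (by linarith)), ?_⟩
          rw [Pi.smul_apply, smul_eq_mul]
          have hne : (x - pt I k (sb b)) k ≠ 0 := by
            intro e
            rw [e, mul_zero] at hd'
            exact lt_irrefl _ hd'
          field_simp
          ring
      have hP := g1_add h.conv (g1_mem (x := x) (hpt j false)) haC
      have hN := g1_add h.conv (g1_mem (x := x) (hpt j true)) haC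
      have hPk : (x - pt I j (sb false) + a) k = 0 := by
        rw [Pi.add_apply, Pi.sub_apply, pt_ne _ hj.symm]
        exact hak
      have hNk : (x - pt I j (sb true) + a) k = 0 := by
        rw [Pi.add_apply, Pi.sub_apply, pt_ne _ hj.symm]
        exact hak
      by_cases hne : x - pt I j (sb false) + a = 0
      · refine ⟨_, hN, ?_, hNk⟩
        intro hne'
        have e1 := congrFun hne j
        have e2 := congrFun hne' j
        simp only [Pi.add_apply, Pi.sub_apply, pt_self, Pi.zero_apply, sb, if_true,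
          Bool.false_eq_true, if_false] at e1 e2
        linarith
      · exact ⟨_, hP, hne, hPk⟩
    obtain ⟨r, hr, r1, r2, l, r3, r4⟩ := g1_ray t1 hvne (fun l hl => by
      by_cases hlk : l = k
      · rw [hlk, hvk]
      · exact absurd hl (h2 l hlk))
    refine two _ r1 ?_ l k ?_ r4 ?_
    · have e : y + r • v - x = (y - x) + r • v := by abel
      rw [e]
      exact g1_add h.conv hyC (g1_smul hvC hr)
    · rintro rfl
      exact r3 t4
    · rw [r2 k t4, t4]

end Pool.Agent.Lib.MP_5e7226_co.GB
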