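import Pool.Agent.Lib.MP_5e7226_co.GB.Base

/-!
# Directions at a vertex and at an edge of the cube
-/

set_option autoImplicit false

open Set Filter Topology

namespace Pool.Agent.Lib.MP_5e7226_co.GB

private lemma g2_others (k : Fin 3) : ∃ i j : Fin 3, i ≠ j ∧ i ≠ k ∧ j ≠ k := by
  revert k; decide

private lemma g2_abs {a : E} (ha : IsSign a) (k : Fin 3) : |a k| ≤ 1 ∧ |-(a k)| ≤ 1 := by
  rcases ha k with h | h <;> simp [h]

private lemma g2_sq {a : E} (ha : IsSign a) (k : Fin 3) : a k * a k = 1 := by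
  rcases ha k with h | h <;> simp [h]

/-- an interior point and four points of `L` -/
private lemma g2_comb {L : Set E} (hL : Convex ℝ L) {y z0 z1 z2 z3 z4 : E}
    (h0 : z0 ∈ interior L) (h1 : z1 ∈ L) (h2 : z2 ∈ L) (h3 : z3 ∈ L) (h4 : z4 ∈ L)
    {c0 c1 c2 c3 c4 : ℝ} (p0 : 0 < c0) (p1 : 0 ≤ c1) (p2 : 0 ≤ c2) (p3 : 0 ≤ c3) (p4 : 0 ≤ c4)
    {w : E} (hw : w = c0 • (z0 - y) + c1 • (z1 - y) + c2 • (z2 - y) + c3 • (z3 - y)
      + c4 • (z4 - y)) : Serve L y w := by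
  rw [hw]
  exact ((((serve_mk h0 p0).add hL (Feas.mk h1 p1)).add hL (Feas.mk h2 p2)).add hL
    (Feas.mk h3 p3)).add hL (Feas.mk h4 p4)

/-- G2a: the vertex box direction covers the initial parts of the three edges at the vertex. -/
theorem box_cov {L : Set E} {I : Fin 3 → E} (h : Cfg L I) {z0 : E} (hz0 : z0 ∈ interior L)
    {a : E} (ha : IsSign a) {t : Fin 3 → ℝ} (ht : ∀ k, 0 ≤ t k) (hs : ∑ k, t k < 1) (k : Fin 3)
    {τ : ℝ} (h0 : 0 ≤ τ) (h1 : τ ≤ t k) : Serve L (edgePt a k τ) (bdir I z0 t a) := by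
  obtain ⟨i, j, hij, hik, hjk⟩ := g2_others k
  refine g2_comb h.conv hz0 (h.seg i _ (g2_abs ha i).1) (h.seg j _ (g2_abs ha j).1)
    (h.seg k _ (g2_abs ha k).1) (h.seg k _ (g2_abs ha k).2) (c0 := 1 - ∑ k, t k) (c1 := t i)
    (c2 := t j) (c3 := t k - τ) (c4 := τ) (by linarith) (ht i) (ht j) (by linarith) h0 ?_
  unfold bdir
  rw [sum3 hij hik hjk, sum3 hij hik hjk]
  refine ext3 hij hik hjk ?_ ?_ ?_
  · simp only [Pi.add_apply, Pi.smul_apply, Pi.sub_apply, smul_eq_mul, pt_self, pt_ne I hij,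
      pt_ne I hik, edgePt_ne a hik]
    ring
  · simp only [Pi.add_apply, Pi.smul_apply, Pi.sub_apply, smul_eq_mul, pt_self, pt_ne I hij.symm,
      pt_ne I hjk, edgePt_ne a hjk]
    ring
  · simp only [Pi.add_apply, Pi.smul_apply, Pi.sub_apply, smul_eq_mul, pt_self, pt_ne I hik.symm,
      pt_ne I hjk.symm, edgePt_self]
    ring

/-- G2b: the vertex box direction serves the point `X_i^{a_i}`. -/
theorem uvl {L : Set E} {I : Fin 3 → E} (h : Cfg L I) {z0 : E} (hz0 : z0 ∈ interior L)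
    {a : E} (ha : IsSign a) {t : Fin 3 → ℝ} (ht : ∀ k, 0 ≤ t k) (hs : ∑ k, t k < 1) (i : Fin 3)
    (hj : ∀ j, j ≠ i → (1 - a j * I i j) / 2 ≤ t j) :
    Serve L (pt I i (a i)) (bdir I z0 t a) := by
  obtain ⟨j, k, hjk, hji, hki⟩ := g2_others i
  have hd : ∀ l, l ≠ i → 0 ≤ (1 - a l * I i l) / 2 := by
    intro l hl
    have h1 := h.box _ (h.seg i (a i) (g2_abs ha i).1) l
    rw [pt_ne I hl] at h1
    have h2 := abs_le.1 h1
    rcases ha l with h3 | h3 <;> rw [h3] <;> linarith [h2.1, h2.2]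
  refine g2_comb h.conv hz0 (h.seg j _ (g2_abs ha j).1) (h.seg j _ (g2_abs ha j).2)
    (h.seg k _ (g2_abs ha k).1) (h.seg k _ (g2_abs ha k).2) (c0 := 1 - ∑ k, t k)
    (c1 := t j - (1 - a j * I i j) / 2) (c2 := (1 - a j * I i j) / 2)
    (c3 := t k - (1 - a k * I i k) / 2) (c4 := (1 - a k * I i k) / 2) (by linarith)
    (by linarith [hj j hji]) (hd j hji) (by linarith [hj k hki]) (hd k hki) ?_
  unfold bdir
  rw [sum3 hjk hji hki, sum3 hjk hji hki]
  have qj := g2_sq ha j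
  have qk := g2_sq ha k
  refine ext3 hjk hji hki ?_ ?_ ?_
  · simp only [Pi.add_apply, Pi.smul_apply, Pi.sub_apply, smul_eq_mul, pt_self, pt_ne I hjk,
      pt_ne I hji]
    linear_combination (-(I i j)) * qj
  · simp only [Pi.add_apply, Pi.smul_apply, Pi.sub_apply, smul_eq_mul, pt_self, pt_ne I hjk.symm,
      pt_ne I hki]
    linear_combination (-(I i k)) * qk
  · simp only [Pi.add_apply, Pi.smul_apply, Pi.sub_apply, smul_eq_mul, pt_self, pt_ne I hji.symm,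
      pt_ne I hki.symm]
    ring

/-- G2c: one direction for an edge without its ends. -/
theorem reg {L : Set E} {I : Fin 3 → E} (h : Cfg L I) {a : E} (ha : IsSign a) (k : Fin 3)
    {ε : ℝ} (hε : 0 < ε) :
    ∃ w, ∀ τ, ε ≤ τ → τ ≤ 1 - ε → Serve L (edgePt a k τ) w := by
  obtain ⟨z0, hz0⟩ := h.int
  obtain ⟨i, j, hij, hik, hjk⟩ := g2_others k
  refine ⟨(1 - 2 * ε) • (pt I k (a k) - a) + (2 * ε) • (z0 - a)
    + Pi.single k (2 * ε * a k), fun τ h1 h2 => ?_⟩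
  refine g2_comb h.conv hz0 (h.seg k _ (g2_abs ha k).1) (h.seg k _ (g2_abs ha k).2)
    (h.seg k _ (g2_abs ha k).1) (h.seg k _ (g2_abs ha k).1) (c0 := 2 * ε)
    (c1 := 1 - 2 * ε - (τ - ε)) (c2 := τ - ε) (c3 := 0) (c4 := 0) (by linarith)
    (by linarith) (by linarith) le_rfl le_rfl ?_
  refine ext3 hij hik hjk ?_ ?_ ?_
  · simp only [Pi.add_apply, Pi.smul_apply, Pi.sub_apply, smul_eq_mul, pt_ne I hik,
      edgePt_ne a hik, Pi.single_eq_of_ne hik]
    ring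
  · simp only [Pi.add_apply, Pi.smul_apply, Pi.sub_apply, smul_eq_mul, pt_ne I hjk,
      edgePt_ne a hjk, Pi.single_eq_of_ne hjk]
    ring
  · simp only [Pi.add_apply, Pi.smul_apply, Pi.sub_apply, smul_eq_mul, pt_self,
      edgePt_self, Pi.single_eq_same]
    ring

end Pool.Agent.Lib.MP_5e7226_co.GB
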