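import Pool.Agent.Lib.MP_5e7226_co.GB.Base

/-!
# Task G3: an edge direction which also serves one of the marked points
-/

set_option autoImplicit false

open Set Filter Topology

namespace Pool.Agent.Lib.MP_5e7226_co.GB

/-- G3: an edge direction which also serves `X_i^{a_i}`. -/
theorem sbl {L : Set E} {I : Fin 3 → E} (h : Cfg L I) {a : E} (ha : IsSign a) {i j k : Fin 3}
    (hij : i ≠ j) (hik : i ≠ k) (hjk : j ≠ k)
    (hd : (1 - a j * I i j) + (1 - a k * I i k) ≤ 2) {hh ε : ℝ}
    (h1 : (1 - a j * I i j) / 2 < hh) (h2 : hh ≤ 1) (hε : 0 < ε) :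
    ∃ w, Serve L (pt I i (a i)) w ∧ ∀ τ, ε ≤ τ → τ ≤ 1 - hh → Serve L (edgePt a k τ) w := by
  obtain ⟨z0, hz0⟩ := h.int
  have habs : ∀ l, |a l| ≤ 1 := fun l => by rcases ha l with e | e <;> rw [e] <;> simp
  have habsn : ∀ l, |-a l| ≤ 1 := fun l => by rw [abs_neg]; exact habs l
  have hxi : pt I i (a i) ∈ L := h.seg i _ (habs i)
  have hxj : |I i j| ≤ 1 := by
    have := h.box _ hxi j
    rwa [pt_ne I hij.symm] at this
  have hxk : |I i k| ≤ 1 := by
    have := h.box _ hxi k
    rwa [pt_ne I hik.symm] at this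
  have hsq : ∀ l, a l * a l = 1 := fun l => by rcases ha l with e | e <;> rw [e] <;> norm_num
  have hprod : ∀ l, ∀ u : ℝ, |u| ≤ 1 → 0 ≤ 1 - a l * u := by
    intro l u hu
    have h3 := abs_le.mp hu
    rcases ha l with e | e <;> rw [e] <;> linarith [h3.1, h3.2]
  obtain ⟨dj, hdj⟩ : ∃ d, d = 1 - a j * I i j := ⟨_, rfl⟩
  obtain ⟨dk, hdk⟩ : ∃ d, d = 1 - a k * I i k := ⟨_, rfl⟩
  have hdj0 : 0 ≤ dj := by rw [hdj]; exact hprod j _ hxj
  have hdk0 : 0 ≤ dk := by rw [hdk]; exact hprod k _ hxk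
  rw [← hdj, ← hdk] at hd
  rw [← hdj] at h1
  obtain ⟨r, hr⟩ : ∃ r, r = min hh (dj / 2 + ε) := ⟨_, rfl⟩
  have hrh : r ≤ hh := by rw [hr]; exact min_le_left _ _
  have hrd : r ≤ dj / 2 + ε := by rw [hr]; exact min_le_right _ _
  have hrj : dj / 2 < r := by rw [hr]; exact lt_min h1 (by linarith)
  have hr0 : 0 < r := by linarith
  obtain ⟨o, ho⟩ : ∃ o, o = max 0 (dk / 2 - (1 - r)) := ⟨_, rfl⟩
  have ho0 : 0 ≤ o := by rw [ho]; exact le_max_left _ _
  have ho1 : dk / 2 - (1 - r) ≤ o := by rw [ho]; exact le_max_right _ _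
  have ho2 : o ≤ ε := by rw [ho]; exact max_le hε.le (by linarith)
  have ho3 : o ≤ dk / 2 := by rw [ho]; exact max_le (by linarith) (by linarith)
  obtain ⟨th, hth⟩ : ∃ th, th = (dj / 2) / r := ⟨_, rfl⟩
  have hth0 : 0 ≤ th := by rw [hth]; positivity
  have hth1 : th < 1 := by rw [hth, div_lt_one hr0]; exact hrj
  have hrth : r * th = dj / 2 := by rw [hth]; field_simp
  have hXj : pt I j (a j) ∈ L := h.seg j _ (habs j)
  have hXj' : pt I j (-a j) ∈ L := h.seg j _ (habsn j)
  have hXk : pt I k (a k) ∈ L := h.seg k _ (habs k)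
  have hXk' : pt I k (-a k) ∈ L := h.seg k _ (habsn k)
  have hζ : (1 - th) • z0 + th • pt I j (a j) ∈ interior L :=
    h.conv.combo_interior_self_mem_interior hz0 hXj (by linarith) hth0 (by ring)
  refine ⟨(1 - r) • (pt I k (a k) - a) + r • ((1 - th) • z0 + th • pt I j (a j) - a)
    + (2 * o * a k) • (Pi.single k 1 : E), ?_, ?_⟩
  · have hS := Serve.add h.conv (Serve.add h.conv (Serve.add h.conv
      (serve_mk (x := pt I i (a i)) hz0 (c := r * (1 - th)) (mul_pos hr0 (by linarith)))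
      (Feas.mk (x := pt I i (a i)) hXj' (c := dj / 2) (by linarith)))
      (Feas.mk (x := pt I i (a i)) hXk' (c := dk / 2 - o) (by linarith)))
      (Feas.mk (x := pt I i (a i)) hXk (c := (1 - r) - (dk / 2 - o)) (by linarith))
    convert hS using 1
    apply ext3 hij hik hjk
    · simp only [Pi.add_apply, Pi.smul_apply, Pi.sub_apply, smul_eq_mul, pt_self, pt_ne I hij,
        pt_ne I hik, Pi.single_apply, hik, if_false]
      linear_combination (I j i - a i) * hrth
    · simp only [Pi.add_apply, Pi.smul_apply, Pi.sub_apply, smul_eq_mul, pt_self, pt_ne I hij.symm,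
        pt_ne I hjk, Pi.single_apply, hjk, if_false]
      rw [hdj] at hrth ⊢
      linear_combination (a j - I i j) * hrth - (I i j) * hsq j
    · simp only [Pi.add_apply, Pi.smul_apply, Pi.sub_apply, smul_eq_mul, pt_self,
        pt_ne I hik.symm, pt_ne I hjk.symm, Pi.single_apply, if_true]
      rw [hdk]
      linear_combination (I j k - I i k) * hrth - (I i k) * hsq k
  · intro τ hτ0 hτ1
    have hS := Serve.add h.conv (Serve.add h.conv
      (serve_mk (x := edgePt a k τ) hζ hr0)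
      (Feas.mk (x := edgePt a k τ) hXk' (c := τ - o) (by linarith)))
      (Feas.mk (x := edgePt a k τ) hXk (c := (1 - r) - (τ - o)) (by linarith))
    convert hS using 1
    apply ext3 hij hik hjk
    · simp only [Pi.add_apply, Pi.smul_apply, Pi.sub_apply, smul_eq_mul, pt_ne I hij,
        pt_ne I hik, Pi.single_apply, hik, if_false, edgePt_ne a hik]
      ring
    · simp only [Pi.add_apply, Pi.smul_apply, Pi.sub_apply, smul_eq_mul, pt_self,
        pt_ne I hjk, Pi.single_apply, hjk, if_false, edgePt_ne a hjk]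
      ring
    · simp only [Pi.add_apply, Pi.smul_apply, Pi.sub_apply, smul_eq_mul, pt_self,
        pt_ne I hjk.symm, Pi.single_apply, if_true, edgePt_self]
      ring

end Pool.Agent.Lib.MP_5e7226_co.GB
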