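import Pool.Agent.Lib.MP_5e7226_co.GB.Base

/-!
# Lemmas G4a and G4b: an edge direction which also serves a point of a degenerate segment
-/

set_option autoImplicit false

open Set Filter Topology

namespace Pool.Agent.Lib.MP_5e7226_co.GB

lemma g4_sign {a : E} (ha : IsSign a) (k : Fin 3) : a k * a k = 1 := by
  rcases ha k with h | h <;> rw [h] <;> norm_num

lemma g4_abs_sign {a : E} (ha : IsSign a) (k : Fin 3) : |a k| = 1 := by
  rcases ha k with h | h <;> rw [h] <;> norm_num

/-- the absolute value of `p / |p|` is at most one (also for `p = 0`) -/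
lemma g4_abs_div (p : ℝ) : abs (p / |p|) ≤ 1 := by
  rw [abs_div, abs_abs]; exact div_self_le_one _

lemma g4_mul_div (p : ℝ) : |p| * (p / |p|) = p := by
  by_cases hp : p = 0
  · simp [hp]
  · rw [mul_div_cancel₀]
    exact abs_ne_zero.mpr hp

lemma g4_zero_mem {L : Set E} {I : Fin 3 → E} (h : Cfg L I) {i j m : Fin 3}
    (hij : i ≠ j) (him : i ≠ m) (hjm : j ≠ m) (h1 : I j i = 0) (h2 : I j m = 0) :
    (0 : E) ∈ L := by
  have := h.seg j 0 (by norm_num)
  have he : pt I j 0 = 0 := by
    refine ext3 hij him hjm ?_ ?_ ?_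
    · rw [pt_ne I hij, h1]; rfl
    · rw [pt_self]; rfl
    · rw [pt_ne I hjm.symm, h2]; rfl
  rwa [he] at this

/-- the rhombus in the plane `x_i = 0` -/
lemma g4_rhombus {L : Set E} {I : Fin 3 → E} (h : Cfg L I) {i j m : Fin 3}
    (hij : i ≠ j) (him : i ≠ m) (hjm : j ≠ m) (h1 : I j i = 0) (h2 : I j m = 0) (h3 : I m i = 0)
    (h4 : I m j = 0) {P : E} (hi : P i = 0) (hP : |P j| + |P m| ≤ 1) : P ∈ L := by
  have hl0 : 0 ≤ |P j| := abs_nonneg _
  have hm0 : 0 ≤ |P m| := abs_nonneg _
  have hA : pt I j (P j / |P j|) ∈ L := h.seg j _ (g4_abs_div _)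
  have hB : pt I m (P m / (1 - |P j|)) ∈ L := by
    apply h.seg m
    rw [abs_div, abs_of_nonneg (by linarith : (0 : ℝ) ≤ 1 - |P j|)]
    exact div_le_one_of_le₀ (by linarith) (by linarith)
  have key := h.conv hA hB hl0 (by linarith : (0 : ℝ) ≤ 1 - |P j|) (by ring)
  have he : |P j| • pt I j (P j / |P j|) + (1 - |P j|) • pt I m (P m / (1 - |P j|)) = P := by
    refine ext3 hij him hjm ?_ ?_ ?_
    · simp only [Pi.add_apply, Pi.smul_apply, smul_eq_mul]
      rw [pt_ne I hij, pt_ne I him, h1, h3, hi]; ring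
    · simp only [Pi.add_apply, Pi.smul_apply, smul_eq_mul]
      rw [pt_self, pt_ne I hjm, h4, g4_mul_div]; ring
    · simp only [Pi.add_apply, Pi.smul_apply, smul_eq_mul]
      rw [pt_self, pt_ne I hjm.symm, h2]
      by_cases hz : 1 - |P j| = 0
      · have : P m = 0 := by
          have : |P m| ≤ 0 := by linarith
          exact abs_eq_zero.mp (le_antisymm this hm0)
        rw [this, hz]; ring
      · field_simp
        ring
  rwa [he] at key

/-- the open rhombus in the plane `x_i = 0` is in the interior of the body -/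
lemma g4_int {L : Set E} {I : Fin 3 → E} (h : Cfg L I) {i j m : Fin 3}
    (hij : i ≠ j) (him : i ≠ m) (hjm : j ≠ m) (h1 : I j i = 0) (h2 : I j m = 0) (h3 : I m i = 0)
    (h4 : I m j = 0) {P : E} (hi : P i = 0) (hP : |P j| + |P m| < 1) : P ∈ interior L := by
  have hb : |I i j| ≤ 1 := by
    have := h.box _ (h.seg i 1 (by norm_num)) j
    rwa [pt_ne I hij.symm] at this
  have hc : |I i m| ≤ 1 := by
    have := h.box _ (h.seg i 1 (by norm_num)) m
    rwa [pt_ne I him.symm] at this
  rw [mem_interior_iff_mem_nhds, Metric.mem_nhds_iff]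
  set r : ℝ := (1 - |P j| - |P m|) / 6 with hr
  have hrpos : 0 < r := by rw [hr]; linarith
  have hPj := abs_nonneg (P j)
  have hPm := abs_nonneg (P m)
  have hr1 : r ≤ 1 / 6 := by rw [hr]; linarith
  refine ⟨r, hrpos, ?_⟩
  intro Q hQ
  rw [Metric.mem_ball, dist_pi_lt_iff hrpos] at hQ
  have hQi : |Q i| < r := by
    have := hQ i
    rwa [hi, Real.dist_eq, sub_zero] at this
  have hQj : |Q j - P j| < r := by simpa [Real.dist_eq] using hQ j
  have hQm : |Q m - P m| < r := by simpa [Real.dist_eq] using hQ m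
  have hu0 := abs_nonneg (Q i)
  have hden : 0 < 1 - |Q i| := by linarith
  -- the point of the plane
  set P' : E := fun l => (1 - |Q i|)⁻¹ * (Q l - |Q i| * pt I i (Q i / |Q i|) l) with hP'
  have hP'i : P' i = 0 := by
    rw [hP']
    simp only [pt_self]
    rw [g4_mul_div]; ring
  have hP'j : |P' j| ≤ (1 - |Q i|)⁻¹ * (|P j| + 2 * r) := by
    rw [hP']
    simp only [pt_ne I hij.symm]
    rw [abs_mul, abs_of_pos (inv_pos.mpr hden)]
    apply mul_le_mul_of_nonneg_left _ (inv_pos.mpr hden).le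
    have e1 : Q j - |Q i| * I i j = (Q j - P j) + P j + (-(|Q i| * I i j)) := by ring
    have e2 : |(-(|Q i| * I i j))| ≤ r := by
      rw [abs_neg, abs_mul, abs_abs]
      nlinarith
    rw [e1]
    refine (abs_add_three _ _ _).trans ?_
    linarith
  have hP'm : |P' m| ≤ (1 - |Q i|)⁻¹ * (|P m| + 2 * r) := by
    rw [hP']
    simp only [pt_ne I him.symm]
    rw [abs_mul, abs_of_pos (inv_pos.mpr hden)]
    apply mul_le_mul_of_nonneg_left _ (inv_pos.mpr hden).le
    have e1 : Q m - |Q i| * I i m = (Q m - P m) + P m + (-(|Q i| * I i m)) := by ring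
    have e2 : |(-(|Q i| * I i m))| ≤ r := by
      rw [abs_neg, abs_mul, abs_abs]
      nlinarith
    rw [e1]
    refine (abs_add_three _ _ _).trans ?_
    linarith
  have hmem : P' ∈ L := by
    refine g4_rhombus h hij him hjm h1 h2 h3 h4 hP'i ?_
    have : (1 - |Q i|)⁻¹ * (|P j| + 2 * r) + (1 - |Q i|)⁻¹ * (|P m| + 2 * r) ≤ 1 := by
      rw [← mul_add, inv_mul_le_iff₀ hden]
      rw [hr] at *
      linarith
    linarith
  have hX : pt I i (Q i / |Q i|) ∈ L := h.seg i _ (g4_abs_div _)
  have key := h.conv hX hmem hu0 hden.le (by ring)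
  have he : |Q i| • pt I i (Q i / |Q i|) + (1 - |Q i|) • P' = Q := by
    funext l
    simp only [Pi.add_apply, Pi.smul_apply, smul_eq_mul, hP']
    field_simp
    ring
  rwa [he] at key

/-- G4a -/
theorem t1a {L : Set E} {I : Fin 3 → E} (h : Cfg L I) {a : E} (ha : IsSign a) {i j m : Fin 3}
    (hij : i ≠ j) (him : i ≠ m) (hjm : j ≠ m) (h1 : I j i = 0) (h2 : I j m = 0) (h3 : I m i = 0)
    (h4 : I m j = 0) (hb : |I i m| ≤ a j * I i j) {ε : ℝ} (hε : 0 < ε) :
    ∃ w, Serve L (pt I j (a j)) w ∧ ∀ τ, ε ≤ τ → τ ≤ 1 - ε → Serve L (edgePt a m τ) w := by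
  set e : ℝ := min ε (1 / 2) with he
  have he0 : 0 < e := lt_min hε (by norm_num)
  have he1 : e ≤ 1 / 2 := min_le_right _ _
  have heε : e ≤ ε := min_le_left _ _
  have haj := g4_sign ha j
  -- the direction
  set w : E := (1 : ℝ) • (pt I i (-a i) - pt I j (a j))
    + |I i m| • (pt I m (-(I i m / |I i m|)) - pt I j (a j)) with hw
  have hz0 : (0 : E) ∈ interior L :=
    g4_int h hij him hjm h1 h2 h3 h4 (P := 0) rfl (by simp)
  refine ⟨(a j * I i j - |I i m| + e) • ((0 : E) - pt I j (a j)) + w, ?_, ?_⟩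
  · refine Serve.add h.conv (serve_mk hz0 (by linarith)) ?_
    refine Feas.add h.conv (Feas.mk (h.seg i _ ?_) zero_le_one) (Feas.mk (h.seg m _ ?_)
      (abs_nonneg _))
    · rw [abs_neg, g4_abs_sign ha]
    · rw [abs_neg]; exact g4_abs_div _
  · intro τ h5 h6
    refine ⟨1, one_pos, ?_⟩
    refine g4_int h hij him hjm h1 h2 h3 h4 ?_ ?_
    · simp only [hw, Pi.add_apply, Pi.smul_apply, smul_eq_mul, Pi.sub_apply, Pi.zero_apply]
      rw [edgePt_ne a him, pt_ne I hij, pt_self, pt_ne I him, h1, h3]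
      ring
    · have e1 : (edgePt a m τ + (1 : ℝ) • ((a j * I i j - |I i m| + e) •
          ((0 : E) - pt I j (a j)) + w)) j = -(e * a j) := by
        simp only [hw, Pi.add_apply, Pi.smul_apply, smul_eq_mul, Pi.sub_apply, Pi.zero_apply]
        rw [edgePt_ne a hjm, pt_self, pt_ne I hij.symm, pt_ne I hjm, h4]
        linear_combination (-(I i j)) * haj
      have e2 : (edgePt a m τ + (1 : ℝ) • ((a j * I i j - |I i m| + e) •
          ((0 : E) - pt I j (a j)) + w)) m = a m * (1 - 2 * τ) := by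
        simp only [hw, Pi.add_apply, Pi.smul_apply, smul_eq_mul, Pi.sub_apply, Pi.zero_apply]
        rw [edgePt_self, pt_ne I hjm.symm, h2, pt_ne I him.symm, pt_self]
        have := g4_mul_div (I i m)
        linear_combination -this
      rw [e1, e2, abs_neg, abs_mul, abs_mul, g4_abs_sign ha, g4_abs_sign ha, abs_of_pos he0]
      have h7 : |1 - 2 * τ| ≤ 1 - 2 * e := by
        rw [abs_le]; constructor <;> linarith
      linarith

/-- G4b -/
theorem t1b {L : Set E} {I : Fin 3 → E} (h : Cfg L I) {a : E} (ha : IsSign a) {i j m : Fin 3}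
    (hij : i ≠ j) (him : i ≠ m) (hjm : j ≠ m) (h1 : I j i = 0) (h2 : I j m = 0) (h3 : I m i = 0)
    (h4 : I m j = 0) (hb : a j * I i j ≤ |I i m|) (hc : a m * I i m = |I i m|) {ε : ℝ}
    (hε : 0 < ε) :
    ∃ w, Serve L (pt I j (a j)) w ∧ ∀ τ, ε ≤ τ → τ ≤ 1 - ε → Serve L (edgePt a i τ) w := by
  set e : ℝ := min ε (1 / 2) with he
  have he0 : 0 < e := lt_min hε (by norm_num)
  have he1 : e ≤ 1 / 2 := min_le_right _ _
  have heε : e ≤ ε := min_le_left _ _
  have haj := g4_sign ha j
  have ham := g4_sign ha m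
  have hc1 : |I i m| ≤ 1 := by
    have := h.box _ (h.seg i 1 (by norm_num)) m
    rwa [pt_ne I him.symm] at this
  have hz0 : (0 : E) ∈ interior L :=
    g4_int h hij him hjm h1 h2 h3 h4 (P := 0) rfl (by simp)
  have hC2 : 0 < (1 - 2 * e) * (|I i m| - a j * I i j) + e := by
    have : 0 ≤ (1 - 2 * e) * (|I i m| - a j * I i j) :=
      mul_nonneg (by linarith) (by linarith)
    linarith
  have hC1 : 0 ≤ (1 - 2 * e) * (1 - |I i m|) + 2 * e := by
    have : 0 ≤ (1 - 2 * e) * (1 - |I i m|) :=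
      mul_nonneg (by linarith) (by linarith)
    linarith
  refine ⟨((1 - 2 * e) * (|I i m| - a j * I i j) + e) • ((0 : E) - pt I j (a j)) +
    ((1 - 2 * e) * (1 - |I i m|) + 2 * e) • (pt I m (-a m) - pt I j (a j)), ?_, ?_⟩
  · refine Serve.add h.conv (serve_mk hz0 hC2) (Feas.mk (h.seg m _ ?_) hC1)
    rw [abs_neg, g4_abs_sign ha]
  · intro τ h5 h6
    refine ⟨1, one_pos, ?_⟩
    -- the interior point ζ
    have hζ : (fun l => if l = j then -(a j) / 2 else 0 : E) ∈ interior L := by
      refine g4_int h hij him hjm h1 h2 h3 h4 ?_ ?_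
      · simp [hij]
      · simp only [if_true, if_neg hjm.symm, abs_zero, add_zero]
        rw [abs_div, abs_neg, g4_abs_sign ha]
        norm_num
    have hX : pt I i (a i * (1 - 2 * τ) / (1 - 2 * e)) ∈ L := by
      apply h.seg i
      rw [abs_div, abs_mul, g4_abs_sign ha, abs_of_nonneg (by linarith : (0 : ℝ) ≤ 1 - 2 * e),
        one_mul]
      refine div_le_one_of_le₀ ?_ (by linarith)
      rw [abs_le]; constructor <;> linarith
    have key := h.conv.combo_interior_self_mem_interior hζ hX (a := 2 * e) (b := 1 - 2 * e)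
      (by linarith) (by linarith) (by ring)
    convert key using 1
    refine ext3 hij him hjm ?_ ?_ ?_
    · simp only [Pi.add_apply, Pi.smul_apply, smul_eq_mul, Pi.sub_apply, Pi.zero_apply]
      rw [edgePt_self, pt_ne I hij, pt_self, pt_ne I him, h1, h3, if_neg hij]
      by_cases hz : 1 - 2 * e = 0
      · have : 1 - 2 * τ = 0 := by linarith
        rw [this, hz]; ring
      · field_simp
        ring
    · simp only [Pi.add_apply, Pi.smul_apply, smul_eq_mul, Pi.sub_apply, Pi.zero_apply]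
      rw [edgePt_ne a hij.symm, pt_self, pt_ne I hjm, pt_ne I hij.symm, h4, if_pos trivial]
      linear_combination ((1 - 2 * e) * (I i j)) * haj
    · simp only [Pi.add_apply, Pi.smul_apply, smul_eq_mul, Pi.sub_apply, Pi.zero_apply]
      rw [edgePt_ne a him.symm, pt_self, pt_ne I hjm.symm, pt_ne I him.symm, h2,
        if_neg hjm.symm]
      linear_combination ((1 - 2 * e) * (I i m)) * ham - ((1 - 2 * e) * a m) * hc

end Pool.Agent.Lib.MP_5e7226_co.GB
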