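import Pool.Agent.Lib.MP_5e7226_co.GB.Base

/-!
# G5: a direction serving the point `X_m` and the interior of an edge
-/

set_option autoImplicit false

open Set Filter Topology

namespace Pool.Agent.Lib.MP_5e7226_co.GB

/-- a point all of whose directions are feasible is interior -/
lemma g5_interior_of_feas {L : Set E} (hL : Convex ℝ L) (hi : (interior L).Nonempty) {x : E}
    (h : ∀ v, Feas L x v) : x ∈ interior L := by
  obtain ⟨z0, hz0⟩ := hi
  obtain ⟨s, hs, z, hz, hv⟩ := h (x - z0)
  have key := hL.combo_interior_self_mem_interior hz0 hz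
    (a := 1 / (1 + s)) (b := s / (1 + s)) (by positivity) (by positivity)
    (by field_simp)
  convert key using 1
  funext l
  have hl : x l - z0 l = s * (z l - x l) := by
    have := congrFun hv l
    simpa only [Pi.sub_apply, Pi.smul_apply, smul_eq_mul] using this
  simp only [Pi.add_apply, Pi.smul_apply, smul_eq_mul]
  field_simp
  linarith

/-- all directions are feasible at the origin -/
lemma g5_feas_zero {L : Set E} {I : Fin 3 → E} (h : Cfg L I) {i j m : Fin 3}
    (hij : i ≠ j) (him : i ≠ m) (hjm : j ≠ m) (h1 : I i m = 0) (h2 : I j m = 0) (h3 : I m i = 0)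
    (h4 : I m j = 0) (hb1 : |I i j| < 1) (hab : |I j i| ≤ |I i j|) (v : E) : Feas L 0 v := by
  set α := I j i with hα
  set β := I i j with hβ
  set T : ℝ := (|v i| + |v j|) / (1 - |β|) with hT
  have hpos : 0 < 1 - |β| := by linarith
  have hTn : 0 ≤ T := by positivity
  have hTe : T * (1 - |β|) = |v i| + |v j| := by rw [hT]; field_simp
  have hvi := abs_nonneg (v i)
  have hvj := abs_nonneg (v j)
  have hβn := abs_nonneg β
  have hαn := abs_nonneg α
  -- |v i - α T| ≤ T, |v j - β T| ≤ T
  have hD1 : |v i - α * T| ≤ T := by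
    calc |v i - α * T| ≤ |v i| + |α * T| := abs_sub _ _
      _ = |v i| + |α| * T := by rw [abs_mul, abs_of_nonneg hTn]
      _ ≤ |v i| + |β| * T := by nlinarith
      _ ≤ T := by nlinarith
  have hD2 : |v j - β * T| ≤ T := by
    calc |v j - β * T| ≤ |v j| + |β * T| := abs_sub _ _
      _ = |v j| + |β| * T := by rw [abs_mul, abs_of_nonneg hTn]
      _ ≤ T := by nlinarith
  obtain ⟨hD1a, hD1b⟩ := abs_le.mp hD1
  obtain ⟨hD2a, hD2b⟩ := abs_le.mp hD2
  have m1 : ∀ k, pt I k 1 ∈ L := fun k => h.seg k 1 (by norm_num)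
  have m2 : ∀ k, pt I k (-1) ∈ L := fun k => h.seg k (-1) (by norm_num)
  have f1 := Feas.mk (x := 0) (m1 i) (c := (T + (v i - α * T)) / 2) (by linarith)
  have f2 := Feas.mk (x := 0) (m2 i) (c := (T - (v i - α * T)) / 2) (by linarith)
  have f3 := Feas.mk (x := 0) (m1 j) (c := (T + (v j - β * T)) / 2) (by linarith)
  have f4 := Feas.mk (x := 0) (m2 j) (c := (T - (v j - β * T)) / 2) (by linarith)
  have f5 := Feas.mk (x := 0) (m1 m) (c := (|v m| + v m) / 2)
    (by have := neg_abs_le (v m); linarith)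
  have f6 := Feas.mk (x := 0) (m2 m) (c := (|v m| - v m) / 2)
    (by have := le_abs_self (v m); linarith)
  have f := ((((f1.add h.conv f2).add h.conv f3).add h.conv f4).add h.conv f5).add h.conv f6
  convert f using 1
  apply ext3 hij him hjm
  · simp only [Pi.add_apply, Pi.smul_apply, Pi.sub_apply, smul_eq_mul, Pi.zero_apply, pt_self,
      pt_ne I hij, pt_ne I him, h3, ← hα]
    ring
  · simp only [Pi.add_apply, Pi.smul_apply, Pi.sub_apply, smul_eq_mul, Pi.zero_apply, pt_self,
      pt_ne I hij.symm, pt_ne I hjm, h4, ← hβ]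
    ring
  · simp only [Pi.add_apply, Pi.smul_apply, Pi.sub_apply, smul_eq_mul, Pi.zero_apply, pt_self,
      pt_ne I him.symm, pt_ne I hjm.symm, h1, h2]
    ring

/-- G5 -/
theorem t2 {L : Set E} {I : Fin 3 → E} (h : Cfg L I) {a : E} (ha : IsSign a) {i j m : Fin 3}
    (hij : i ≠ j) (him : i ≠ m) (hjm : j ≠ m) (h1 : I i m = 0) (h2 : I j m = 0) (h3 : I m i = 0)
    (h4 : I m j = 0) (hb : a j * I i j = |I i j|) (hb0 : I i j ≠ 0) (hb1 : |I i j| < 1)
    (hab : |I j i| ≤ |I i j|) {ε : ℝ} (hε : 0 < ε) :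
    ∃ w, Serve L (pt I m (a m)) w ∧ ∀ τ, ε ≤ τ → τ ≤ 1 - ε → Serve L (edgePt a i τ) w := by
  have hz : (0 : E) ∈ interior L := g5_interior_of_feas h.conv h.int
    (g5_feas_zero h hij him hjm h1 h2 h3 h4 hb1 hab)
  set α := I j i with hα
  set β := I i j with hβ
  set B : ℝ := |β| with hB
  set A : ℝ := |α| with hA
  have hB0 : 0 < B := abs_pos.mpr hb0
  have hA0 : 0 ≤ A := abs_nonneg α
  obtain ⟨σ, hσ, hσα⟩ : ∃ σ : ℝ, (σ = 1 ∨ σ = -1) ∧ α = σ * A := by
    rcases le_total 0 α with h0 | h0
    · exact ⟨1, Or.inl rfl, by rw [hA, abs_of_nonneg h0, one_mul]⟩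
    · exact ⟨-1, Or.inr rfl, by rw [hA, abs_of_nonpos h0]; ring⟩
  have hσσ : σ * σ = 1 := by rcases hσ with rfl | rfl <;> norm_num
  have haj : a j * a j = 1 := by rcases ha j with h0 | h0 <;> rw [h0] <;> norm_num
  have hβe : β = a j * B := by
    rw [← hb, ← mul_assoc, haj, one_mul]
  set lam : ℝ := min (B / 2) (2 * ε) with hlam
  have hl0 : 0 < lam := lt_min (by positivity) (by positivity)
  have hl1 : lam ≤ B / 2 := min_le_left _ _
  have hl2 : lam ≤ 2 * ε := min_le_right _ _
  set κ : ℝ := lam / 4 with hκ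
  set S : ℝ := (B * (1 - lam / 2) - κ) / (1 + B) with hS
  set c3 : ℝ := 1 - S - κ with hc3
  have hSe : S * (1 + B) = B * (1 - lam / 2) - κ := by rw [hS]; field_simp
  have hS1 : lam / 2 ≤ S := by
    have : lam / 2 * (1 + B) ≤ S * (1 + B) := by
      rw [hSe, hκ]; nlinarith
    exact le_of_mul_le_mul_right this (by linarith)
  have hc3p : 0 ≤ c3 := by
    have : S * (1 + B) ≤ (1 / 2) * (1 + B) := by
      rw [hSe, hκ]; nlinarith
    have h5 : S ≤ 1 / 2 := le_of_mul_le_mul_right this (by linarith)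
    rw [hc3, hκ]; linarith
  set g : ℝ := lam * σ / 2 - α * c3 with hg
  have hge : g = σ * (lam / 2 - A * c3) := by rw [hg, hσα]; ring
  have hgS : |g| ≤ S := by
    have e1 : |g| = |lam / 2 - A * c3| := by
      rw [hge, abs_mul]
      rcases hσ with rfl | rfl <;> simp
    rw [e1, abs_le]
    constructor
    · have : 0 ≤ (S - A * c3 + lam / 2) * (1 + B) := by
        have e2 : (S - A * c3 + lam / 2) * (1 + B) = (B - A) + (lam / 2 - κ) * (1 - A * B) := by
          have e3 : c3 * (1 + B) = 1 - κ * B + B * lam / 2 := by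
            rw [hc3]; linear_combination -hSe
          linear_combination hSe - A * e3
        rw [e2]
        have : 0 ≤ 1 - A * B := by nlinarith
        have : 0 ≤ (lam / 2 - κ) := by rw [hκ]; linarith
        have := mul_nonneg this ‹0 ≤ 1 - A * B›
        linarith
      have := nonneg_of_mul_nonneg_left this (by linarith : (0:ℝ) < 1 + B)
      linarith
    · have := mul_nonneg hA0 hc3p
      linarith
  obtain ⟨hg1, hg2⟩ := abs_le.mp hgS
  refine ⟨fun l => if l = i then lam * σ / 2 else if l = j then β - a j - lam * β / 2 else -a m,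
    ?_, ?_⟩
  · have m1 : pt I i 1 ∈ L := h.seg i 1 (by norm_num)
    have m2 : pt I i (-1) ∈ L := h.seg i (-1) (by norm_num)
    have m3 : pt I j (-a j) ∈ L := h.seg j (-a j) (by
      rcases ha j with h0 | h0 <;> rw [h0] <;> norm_num)
    have s0 := serve_mk (x := pt I m (a m)) hz (c := κ) (by positivity)
    have f1 := Feas.mk (x := pt I m (a m)) m1 (c := (S + g) / 2) (by linarith)
    have f2 := Feas.mk (x := pt I m (a m)) m2 (c := (S - g) / 2) (by linarith)
    have f3 := Feas.mk (x := pt I m (a m)) m3 (c := c3) hc3p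
    have s := ((s0.add h.conv f1).add h.conv f2).add h.conv f3
    convert s using 1
    apply ext3 hij him hjm
    · simp only [Pi.add_apply, Pi.smul_apply, Pi.sub_apply, smul_eq_mul, Pi.zero_apply, pt_self,
        pt_ne I hij, pt_ne I him, h3, ← hα, if_true]
      rw [hg]; ring
    · simp only [Pi.add_apply, Pi.smul_apply, Pi.sub_apply, smul_eq_mul, Pi.zero_apply, pt_self,
        pt_ne I hij.symm, pt_ne I hjm, h4, ← hβ, if_true, if_neg hij.symm]
      rw [hβe, hc3]
      linear_combination (-a j) * hSe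
    · simp only [Pi.add_apply, Pi.smul_apply, Pi.sub_apply, smul_eq_mul, Pi.zero_apply, pt_self,
        pt_ne I him.symm, pt_ne I hjm.symm, h1, h2, if_neg him.symm, if_neg hjm.symm]
      rw [hc3]; ring
  · intro τ ht1 ht2
    have hl3 : lam < 1 := by linarith
    set y : ℝ := a i * (1 - 2 * τ) with hy
    have hyabs : |y| ≤ 1 - 2 * ε := by
      rw [hy, abs_mul]
      have : |a i| = 1 := by rcases ha i with h0 | h0 <;> rw [h0] <;> norm_num
      rw [this, one_mul, abs_le]
      constructor <;> linarith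
    set s : ℝ := (y + lam * σ / 2) / (1 - lam / 2) with hs
    have hden : 0 < 1 - lam / 2 := by linarith
    have hse : s * (1 - lam / 2) = y + lam * σ / 2 := by
      rw [hs]; exact div_mul_cancel₀ _ hden.ne'
    have hsabs : |s| ≤ 1 := by
      rw [hs, abs_div, abs_of_pos hden, div_le_one hden]
      calc |y + lam * σ / 2| ≤ |y| + |lam * σ / 2| := abs_add_le _ _
        _ = |y| + lam / 2 := by
          have e5 : |lam * σ / 2| = lam / 2 := by
            rw [abs_div, abs_mul, abs_of_pos hl0]
            rcases hσ with rfl | rfl <;> simp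
          rw [e5]
        _ ≤ 1 - lam / 2 := by linarith
    have key := h.conv.combo_interior_self_mem_interior hz (h.seg i s hsabs)
      (a := lam / 2) (b := 1 - lam / 2) (by linarith) (by linarith) (by ring)
    refine ⟨1, one_pos, ?_⟩
    convert key using 1
    apply ext3 hij him hjm
    · simp only [Pi.add_apply, Pi.smul_apply, smul_eq_mul, Pi.zero_apply, pt_self,
        edgePt_self, if_true]
      rw [← hy]
      linear_combination -hse
    · simp only [Pi.add_apply, Pi.smul_apply, smul_eq_mul, Pi.zero_apply,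
        pt_ne I hij.symm, edgePt_ne a hij.symm, ← hβ, if_true, if_neg hij.symm]
      ring
    · simp only [Pi.add_apply, Pi.smul_apply, smul_eq_mul, Pi.zero_apply,
        pt_ne I him.symm, edgePt_ne a him.symm, h1, if_neg him.symm, if_neg hjm.symm]
      ring

end Pool.Agent.Lib.MP_5e7226_co.GB
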