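import Pool.Agent.Lib.MP_5e7226_co.GB.Base

/-!
# The normal form of a convex body in three-dimensional space

Among all triples of functionals of width at most two on the body we choose one with maximal
determinant and, among those, with maximal sum of squares.
-/

set_option autoImplicit false

open Set Filter Topology

namespace Pool.Agent.Lib.MP_5e7226_co.GB

/-- the functionals whose width on `S` is at most two -/
def g6_K (S : Set E) : Set E := {u | ∀ x ∈ S, ∀ y ∈ S, dotProduct u (x - y) ≤ 2}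

lemma g6_K_closed (S : Set E) : IsClosed (g6_K S) := by
  have h : g6_K S = ⋂ x ∈ S, ⋂ y ∈ S, {u : E | dotProduct u (x - y) ≤ 2} := by
    ext u; simp [g6_K]
  rw [h]
  refine isClosed_biInter fun x _ => isClosed_biInter fun y _ => ?_
  exact isClosed_le (Continuous.dotProduct continuous_id continuous_const) continuous_const

lemma g6_K_compact {S : Set E} (hi : (interior S).Nonempty) : IsCompact (g6_K S) := by
  apply Metric.isCompact_of_isClosed_isBounded (g6_K_closed S)
  obtain ⟨z0, hz0⟩ := hi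
  obtain ⟨r, hr, hball⟩ := Metric.isOpen_iff.mp isOpen_interior _ hz0
  rw [isBounded_iff_forall_norm_le]
  refine ⟨2 / r, fun u hu => ?_⟩
  rw [pi_norm_le_iff_of_nonneg (by positivity)]
  intro k
  have hmem : ∀ s : ℝ, |s| < r → z0 + Pi.single k s ∈ S := by
    intro s hs
    apply interior_subset
    apply hball
    rw [Metric.mem_ball, dist_eq_norm, add_sub_cancel_left, Pi.norm_single]
    exact hs
  have hval : ∀ s t : ℝ, dotProduct u ((z0 + Pi.single k s) - (z0 + Pi.single k t))
      = u k * (s - t) := by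
    intro s t
    rw [add_sub_add_left_eq_sub, dotProduct_sub, dotProduct_single, dotProduct_single]
    ring
  have hr2 : |r / 2| < r := by rw [abs_of_pos (by positivity)]; linarith
  have h1 := hu _ (hmem (r / 2) hr2) _ (hmem (-(r / 2)) (by rwa [abs_neg]))
  have h2 := hu _ (hmem (-(r / 2)) (by rwa [abs_neg])) _ (hmem (r / 2) hr2)
  rw [hval] at h1 h2
  rw [Real.norm_eq_abs, abs_le]
  constructor
  · rw [neg_le, le_div_iff₀ hr]; linarith
  · rw [le_div_iff₀ hr]; linarith

lemma g6_K_small {S : Set E} (hk : IsCompact S) : ∃ δ : ℝ, 0 < δ ∧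
    ∀ k : Fin 3, (Pi.single k δ : E) ∈ g6_K S := by
  obtain ⟨R, hR⟩ := hk.isBounded.exists_norm_le
  refine ⟨1 / (|R| + 1), by positivity, fun k x hx y hy => ?_⟩
  rw [single_dotProduct, Pi.sub_apply]
  have h1 : |x k| ≤ |R| := ((norm_le_pi_norm x k).trans (hR x hx)).trans (le_abs_self R)
  have h2 : |y k| ≤ |R| := ((norm_le_pi_norm y k).trans (hR y hy)).trans (le_abs_self R)
  rw [abs_le] at h1 h2
  rw [one_div, inv_mul_le_iff₀ (by positivity)]
  linarith [h1.2, h2.1]

/-- triples of functionals in `g6_K` -/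
def g6_M (S : Set E) : Set (Matrix (Fin 3) (Fin 3) ℝ) := {U | ∀ k, U k ∈ g6_K S}

lemma g6_M_compact {S : Set E} (hi : (interior S).Nonempty) : IsCompact (g6_M S) := by
  have h : g6_M S = Set.pi univ (fun _ : Fin 3 => g6_K S) := by
    ext U
    exact ⟨fun h k _ => h k, fun h k => h k (mem_univ k)⟩
  rw [h]
  exact isCompact_univ_pi fun _ => g6_K_compact hi

/-- the sum of the squares of the entries -/
def g6_Q (U : Matrix (Fin 3) (Fin 3) ℝ) : ℝ := ∑ k, dotProduct (U k) (U k)

lemma g6_choice {S : Set E} (hk : IsCompact S) (hi : (interior S).Nonempty) :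
    ∃ U ∈ g6_M S, 0 < U.det ∧ (∀ V ∈ g6_M S, V.det ≤ U.det) ∧
      ∀ V ∈ g6_M S, V.det = U.det → g6_Q V ≤ g6_Q U := by
  obtain ⟨δ, hδ, hsm⟩ := g6_K_small hk
  have hdiag : (Matrix.diagonal fun _ : Fin 3 => δ) ∈ g6_M S := by
    intro k
    have : (Matrix.diagonal fun _ : Fin 3 => δ) k = Pi.single k δ := by
      funext l
      by_cases h : k = l
      · subst h; simp
      · simp [Matrix.diagonal_apply_ne _ h, Pi.single_eq_of_ne (Ne.symm h)]
    rw [this]
    exact hsm k
  have hcont : Continuous (fun U : Matrix (Fin 3) (Fin 3) ℝ => U.det) :=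
    Continuous.matrix_det continuous_id
  have hcQ : Continuous g6_Q := by
    unfold g6_Q
    refine continuous_finsetSum _ fun k _ => ?_
    exact Continuous.dotProduct (continuous_apply k) (continuous_apply k)
  obtain ⟨U0, hU0, hmax⟩ := (g6_M_compact hi).exists_isMaxOn ⟨_, hdiag⟩ hcont.continuousOn
  have hmax' : ∀ V ∈ g6_M S, V.det ≤ U0.det := fun V hV => hmax hV
  have hpos : 0 < U0.det := by
    have h1 := hmax' _ hdiag
    rw [Matrix.det_diagonal, Finset.prod_const, Finset.card_univ, Fintype.card_fin] at h1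
    have : 0 < δ ^ 3 := by positivity
    linarith
  have hcpt : IsCompact (g6_M S ∩ {V | V.det = U0.det}) :=
    (g6_M_compact hi).inter_right (isClosed_eq hcont continuous_const)
  obtain ⟨U, hU, hmaxQ⟩ := hcpt.exists_isMaxOn ⟨U0, hU0, rfl⟩ hcQ.continuousOn
  have hdet : U.det = U0.det := hU.2
  refine ⟨U, hU.1, by rw [hdet]; exact hpos, fun V hV => by rw [hdet]; exact hmax' V hV, ?_⟩
  intro V hV hVd
  exact hmaxQ ⟨hV, by rw [mem_ofPred_eq, hVd, hdet]⟩

lemma g6_update {S : Set E} {U : Matrix (Fin 3) (Fin 3) ℝ} (hU : U ∈ g6_M S) {k : Fin 3} {v : E}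
    (hv : v ∈ g6_K S) : U.updateRow k v ∈ g6_M S := by
  intro l
  by_cases h : l = k
  · subst h; rw [Matrix.updateRow_self]; exact hv
  · rw [Matrix.updateRow_ne h]; exact hU l

/-- Claim 1 -/
lemma g6_width {S : Set E} (hc : Convex ℝ S) (hk : IsCompact S) (hne : S.Nonempty)
    {U : Matrix (Fin 3) (Fin 3) ℝ} (hU : U ∈ g6_M S) (hdet : 0 < U.det)
    (hmax : ∀ V ∈ g6_M S, V.det ≤ U.det) {T : E ≃L[ℝ] E}
    (hT : ∀ x k, T x k = dotProduct (U k) x) (k : Fin 3) :
    ∃ p ∈ S, ∃ q ∈ S, T p - T q = Pi.single k 2 := by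
  by_contra hcon
  push Not at hcon
  -- the difference body
  let F : E × E →L[ℝ] E := (T : E →L[ℝ] E).comp (ContinuousLinearMap.fst ℝ E E) -
    (T : E →L[ℝ] E).comp (ContinuousLinearMap.snd ℝ E E)
  have hF : ∀ x y, F (x, y) = T x - T y := by intro x y; rfl
  have hconv : Convex ℝ (F '' (S ×ˢ S)) := (hc.prod hc).linear_image F.toLinearMap
  have hcomp : IsCompact (F '' (S ×ˢ S)) := (hk.prod hk).image F.continuous
  have hnot : (Pi.single k 2 : E) ∉ F '' (S ×ˢ S) := by
    rintro ⟨⟨x, y⟩, ⟨hx, hy⟩, h⟩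
    exact hcon x hx y hy (by rw [← hF]; exact h)
  obtain ⟨f, u, hfu, huf⟩ := geometric_hahn_banach_closed_point hconv hcomp.isClosed hnot
  obtain ⟨x0, hx0⟩ := hne
  have hu0 : 0 < u := by
    have := hfu _ ⟨(x0, x0), ⟨hx0, hx0⟩, rfl⟩
    rw [hF, sub_self, map_zero] at this
    exact this
  have hf : ∀ z : E, f z = ∑ l, z l * f (Pi.single l 1) := by
    intro z
    conv_lhs => rw [pi_eq_sum_univ' z]
    rw [map_sum]
    refine Finset.sum_congr rfl fun l _ => ?_
    rw [map_smul, smul_eq_mul]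
  let w : Fin 3 → ℝ := fun l => 2 / u * f (Pi.single l 1)
  have hv : (∑ l, w l • U l) ∈ g6_K S := by
    intro x hx y hy
    have h1 := hfu _ ⟨(x, y), ⟨hx, hy⟩, rfl⟩
    rw [hF, hf] at h1
    have h2 : dotProduct (∑ l, w l • U l) (x - y)
        = 2 / u * ∑ l, (T x - T y) l * f (Pi.single l 1) := by
      rw [sum_dotProduct, Finset.mul_sum]
      refine Finset.sum_congr rfl fun l _ => ?_
      rw [smul_dotProduct, Pi.sub_apply, hT, hT, ← dotProduct_sub, smul_eq_mul]
      simp only [w]
      ring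
    rw [h2]
    have h3 : 2 / u * ∑ l, (T x - T y) l * f (Pi.single l 1) ≤ 2 / u * u :=
      mul_le_mul_of_nonneg_left h1.le (by positivity)
    calc _ ≤ 2 / u * u := h3
      _ = 2 := by field_simp
  have h4 := hmax _ (g6_update (k := k) hU hv)
  rw [Matrix.det_updateRow_sum, smul_eq_mul] at h4
  have h5 : 1 < w k := by
    have h6 : f (Pi.single k 2) = 2 * f (Pi.single k 1) := by
      rw [← smul_eq_mul, ← map_smul]
      congr 1
      rw [← Pi.single_smul]
      simp
    rw [h6] at huf
    simp only [w]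
    rw [div_mul_eq_mul_div, one_lt_div hu0]
    exact huf
  nlinarith

/-- the linear equivalence of a matrix with nonzero determinant -/
lemma g6_equiv {U : Matrix (Fin 3) (Fin 3) ℝ} (hdet : U.det ≠ 0) :
    ∃ T : E ≃L[ℝ] E, ∀ x k, T x k = dotProduct (U k) x := by
  have h : LinearMap.det (Matrix.toLin' U) ≠ 0 := by rwa [LinearMap.det_toLin']
  refine ⟨(LinearMap.equivOfDetNeZero (Matrix.toLin' U) h).toContinuousLinearEquiv, ?_⟩
  intro x k
  rfl

/-- Claim 2 -/
lemma g6_perturb {S : Set E} {U : Matrix (Fin 3) (Fin 3) ℝ} (hU : U ∈ g6_M S) (hdet : 0 < U.det)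
    (hmaxQ : ∀ V ∈ g6_M S, V.det = U.det → g6_Q V ≤ g6_Q U) {k l : Fin 3} (hkl : k ≠ l)
    {δ : ℝ} (hδ : 0 < δ) (h1 : U k + δ • U l ∈ g6_K S) (h2 : U k + (-δ) • U l ∈ g6_K S) :
    False := by
  have hQ : ∀ v : E, g6_Q (U.updateRow k v) = g6_Q U - dotProduct (U k) (U k) + dotProduct v v := by
    intro v
    unfold g6_Q
    rw [← Finset.add_sum_erase _ _ (Finset.mem_univ k),
      ← Finset.add_sum_erase _ (fun j => dotProduct (U j) (U j)) (Finset.mem_univ k)]
    rw [Matrix.updateRow_self]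
    have : ∑ x ∈ Finset.univ.erase k, dotProduct (U.updateRow k v x) (U.updateRow k v x)
        = ∑ x ∈ Finset.univ.erase k, dotProduct (U x) (U x) := by
      refine Finset.sum_congr rfl fun j hj => ?_
      rw [Matrix.updateRow_ne (Finset.ne_of_mem_erase hj)]
    rw [this]
    ring
  have e1 := hmaxQ _ (g6_update (k := k) hU h1) (Matrix.det_updateRow_add_smul_self U hkl δ)
  have e2 := hmaxQ _ (g6_update (k := k) hU h2) (Matrix.det_updateRow_add_smul_self U hkl (-δ))
  rw [hQ] at e1 e2
  have hsq : 0 ≤ dotProduct (U l) (U l) := by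
    exact Finset.sum_nonneg fun j _ => mul_self_nonneg _
  have hUl : dotProduct (U l) (U l) ≤ 0 := by
    simp only [add_dotProduct, dotProduct_add, smul_dotProduct, dotProduct_smul, smul_eq_mul]
      at e1 e2
    have hd2 : 0 < δ * δ := by positivity
    by_contra hcon
    push Not at hcon
    nlinarith
  have hz : U l = 0 := by
    have : dotProduct (U l) (U l) = 0 := le_antisymm hUl hsq
    exact dotProduct_self_eq_zero.mp this
  have : U.det = 0 := Matrix.det_eq_zero_of_row_eq_zero l (fun j => by rw [hz]; rfl)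
  linarith

/-- G6: the normal form. -/
theorem auerbach {S : Set E} (hc : Convex ℝ S) (hk : IsCompact S) (hi : (interior S).Nonempty) :
    ∃ (T : E ≃L[ℝ] E) (c : E) (I : Fin 3 → E), Cfg ((fun x => x + c) '' (T '' S)) I ∧
      ∀ k, ¬ (Strong ((fun x => x + c) '' (T '' S)) I k 1 ∧
        Strong ((fun x => x + c) '' (T '' S)) I k (-1)) := by
  have hne : S.Nonempty := hi.mono interior_subset
  obtain ⟨U, hU, hdet, hmax, hmaxQ⟩ := g6_choice hk hi
  obtain ⟨T, hT⟩ := g6_equiv hdet.ne'
  have hw := g6_width hc hk hne hU hdet hmax hT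
  choose p hp q hq hpq using hw
  have hpqk : ∀ k, T (p k) k - T (q k) k = 2 := by
    intro k
    have := congrFun (hpq k) k
    simpa using this
  have hpqj : ∀ k j, j ≠ k → T (p k) j = T (q k) j := by
    intro k j hj
    have := congrFun (hpq k) j
    rw [Pi.sub_apply, Pi.single_eq_of_ne hj] at this
    linarith
  have hwid : ∀ x ∈ S, ∀ y ∈ S, ∀ k, T x k - T y k ≤ 2 := by
    intro x hx y hy k
    rw [hT, hT, ← dotProduct_sub]
    exact hU k x hx y hy
  let c : E := fun k => -(T (p k) k + T (q k) k) / 2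
  let I : Fin 3 → E := fun k => T (p k) + c
  have hck : ∀ k, c k = -(T (p k) k + T (q k) k) / 2 := fun _ => rfl
  have hIk : ∀ k, I k = T (p k) + c := fun _ => rfl
  set L : Set E := (fun x => x + c) '' (T '' S) with hL
  have hmemL : ∀ x ∈ S, T x + c ∈ L := fun x hx => ⟨T x, ⟨x, hx, rfl⟩, rfl⟩
  have hconvL : Convex ℝ L := by
    have h1 : Convex ℝ (T '' S) := hc.linear_image (T : E →L[ℝ] E).toLinearMap
    have h2 := h1.translate c
    have h3 : (fun x => x + c) '' (T '' S) = (fun x => c + x) '' (T '' S) := by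
      congr 1
      funext x
      exact add_comm _ _
    rw [hL, h3]
    exact h2
  have hcfg : Cfg L I := by
    refine ⟨hconvL, ?_, ?_, ?_, ?_⟩
    · exact (hk.image T.continuous).image (continuous_id.add continuous_const)
    · obtain ⟨z, hz⟩ := hi
      refine ⟨T z + c, ?_⟩
      have hopen : IsOpen ((fun x => x + c) '' (T '' (interior S))) := by
        have h1 : IsOpen (T '' (interior S)) := T.toHomeomorph.isOpenMap _ isOpen_interior
        exact (Homeomorph.addRight c).isOpenMap _ h1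
      have hsub : (fun x => x + c) '' (T '' (interior S)) ⊆ L :=
        image_mono (image_mono interior_subset)
      exact interior_maximal hsub hopen ⟨T z, ⟨z, hz, rfl⟩, rfl⟩
    · rintro z ⟨_, ⟨x, hx, rfl⟩, rfl⟩ k
      have h1 := hwid x hx (q k) (hq k) k
      have h2 := hwid (p k) (hp k) x hx k
      have h3 := hpqk k
      simp only [Pi.add_apply]
      rw [abs_le, hck]
      constructor <;> linarith
    · intro k s hs
      rw [abs_le] at hs
      have h := hconvL (hmemL _ (hp k)) (hmemL _ (hq k)) (a := (1 + s) / 2) (b := (1 - s) / 2)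
        (by linarith) (by linarith) (by ring)
      convert h using 1
      funext j
      by_cases hj : j = k
      · subst hj
        have h3 := hpqk j
        rw [pt_self]
        simp only [Pi.add_apply, Pi.smul_apply, smul_eq_mul, hck]
        have h4 : T (p j) j = T (q j) j + 2 := by linarith
        rw [h4]
        ring
      · rw [pt_ne _ hj, hIk]
        simp only [Pi.add_apply, Pi.smul_apply, smul_eq_mul]
        rw [hpqj k j hj]
        ring
  refine ⟨T, c, I, hcfg, ?_⟩
  rintro k ⟨⟨-, c1, hc1, h1⟩, ⟨-, c2, hc2, h2⟩⟩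
  obtain ⟨l, hl⟩ : ∃ l : Fin 3, k ≠ l := by
    fin_cases k
    · exact ⟨1, by decide⟩
    · exact ⟨0, by decide⟩
    · exact ⟨0, by decide⟩
  have key : ∀ x ∈ S, ∀ y ∈ S, (T x k - T y k) + min c1 c2 * |T x l - T y l| ≤ 2 := by
    intro x hx y hy
    have e1 := h1 _ (hmemL x hx)
    have e2 := h2 _ (hmemL y hy)
    have n1 := norm_le_pi_norm (T x + c - pt I k 1) l
    have n2 := norm_le_pi_norm (T y + c - pt I k (-1)) l
    rw [Pi.sub_apply, pt_ne _ (Ne.symm hl), Real.norm_eq_abs] at n1 n2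
    have hm : 0 < min c1 c2 := lt_min hc1 hc2
    have habs : |T x l - T y l| ≤ ‖T x + c - pt I k 1‖ + ‖T y + c - pt I k (-1)‖ := by
      have : T x l - T y l = ((T x + c) l - I k l) - ((T y + c) l - I k l) := by
        simp only [Pi.add_apply]; ring
      rw [this]
      exact (abs_sub _ _).trans (add_le_add n1 n2)
    have m1 : min c1 c2 * ‖T x + c - pt I k 1‖ ≤ c1 * ‖T x + c - pt I k 1‖ :=
      mul_le_mul_of_nonneg_right (min_le_left _ _) (norm_nonneg _)
    have m2 : min c1 c2 * ‖T y + c - pt I k (-1)‖ ≤ c2 * ‖T y + c - pt I k (-1)‖ :=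
      mul_le_mul_of_nonneg_right (min_le_right _ _) (norm_nonneg _)
    have m3 := mul_le_mul_of_nonneg_left habs hm.le
    simp only [Pi.add_apply] at e1 e2
    nlinarith
  have hrow : ∀ σ : ℝ, |σ| = min c1 c2 → U k + σ • U l ∈ g6_K S := by
    intro σ hσ x hx y hy
    have e := key x hx y hy
    rw [← hσ, ← abs_mul] at e
    rw [add_dotProduct, smul_dotProduct, smul_eq_mul, dotProduct_sub, dotProduct_sub,
      ← hT, ← hT, ← hT, ← hT]
    linarith [le_abs_self (σ * (T x l - T y l))]
  have hm : 0 < min c1 c2 := lt_min hc1 hc2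
  exact g6_perturb hU hdet hmaxQ hl hm (hrow _ (abs_of_pos hm))
    (hrow _ (by rw [abs_neg, abs_of_pos hm]))

end Pool.Agent.Lib.MP_5e7226_co.GB
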