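import Pool.Agent.Lib.MP_5e7226_co.GB.G1
import Pool.Agent.Lib.MP_5e7226_co.GB.G2
import Pool.Agent.Lib.MP_5e7226_co.GB.G3
import Pool.Agent.Lib.MP_5e7226_co.GB.G4
import Pool.Agent.Lib.MP_5e7226_co.GB.G5
import Pool.Agent.Lib.MP_5e7226_co.GB.G6

set_option autoImplicit false

open Set Filter Topology

namespace Pool.Agent.Lib.MP_5e7226_co.GB

/-- the neighbour of `v` in the direction `k` is a vertex (not the root `0`) with parent `v` -/
def child (out : Fin 8 → Fin 3) (v : Fin 8) (k : Fin 3) : Bool :=
  decide (flip v k ≠ 0 ∧ out (flip v k) = k)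

/-- the edge is not an edge of the tree (one representation for each edge) -/
def ntree (out : Fin 8 → Fin 3) (v : Fin 8) (k : Fin 3) : Bool :=
  !bit v k && !child out v k && !child out (flip v k) k

lemma ntree_iff {out : Fin 8 → Fin 3} {v : Fin 8} {k : Fin 3} :
    ntree out v k = true ↔
      bit v k = false ∧ child out v k = false ∧ child out (flip v k) k = false := by
  simp [ntree, and_assoc]

lemma child_flip {out : Fin 8 → Fin 3} {v : Fin 8} {k : Fin 3} (hv : v ≠ 0)
    (hk : out v = k) : child out (flip v k) k = true := by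
  simp [child, flip_flip, hv, hk]

/-- the vertex with position `v` relative to the root `R` -/
def rel (R v : Fin 8) : Fin 8 := v ^^^ R

lemma rel_zero (R : Fin 8) : rel R 0 = R := by revert R; decide

lemma rel_rel (R v : Fin 8) : rel R (rel R v) = v := by revert R v; decide

lemma flip_rel (R v : Fin 8) (k : Fin 3) : rel R (flip v k) = flip (rel R v) k := by
  revert R v k; decide

lemma edgePt_relflip (R v : Fin 8) (k : Fin 3) (τ : ℝ) :
    edgePt (sg (rel R (flip v k))) k τ = edgePt (sg (rel R v)) k (1 - τ) := by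
  rw [flip_rel, edgePt_flip]

theorem tree_net {L : Set E} {I : Fin 3 → E} (h : Cfg L I) {z0 : E} (hz0 : z0 ∈ interior L)
    (R : Fin 8) (out : Fin 8 → Fin 3) (lev : Fin 8 → ℕ)
    (hlev : ∀ v, v ≠ 0 → lev v < lev (flip v (out v)))
    (hcard : (Finset.univ.filter
      (fun p : Fin 8 × Fin 3 => ntree out p.1 p.2 = true)).card ≤ 5)
    (load : Fin 8 → ℝ) (dem : Fin 8 → Fin 3 → ℝ) (hdem : ∀ v k, 0 ≤ dem v k)
    (hl0 : ∀ v, 0 ≤ load v) (hl1 : ∀ v, load v < 1)
    (hcons : ∀ v, v ≠ 0 → ∑ k, (if k = out v then 0 else
      if child out v k then load (flip v k) else dem v k) ≤ load v)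
    (r : Fin 3 → ℝ) (hr : ∑ k, r k < 1)
    (hroot : ∀ k, (if child out 0 k then load (flip 0 k) else dem 0 k) < r k)
    (Q : Fin 8 → Fin 3 → E → Prop)
    (hprov : ∀ v k, ntree out v k = true → ∀ ε : ℝ, 0 < ε → ∃ w, Q v k w ∧
      ∀ τ, dem v k + ε ≤ τ → τ ≤ 1 - dem (flip v k) k - ε → Serve L (edgePt (sg (rel R v)) k τ) w) :
    ∃ D : Finset E, D.card ≤ 13 ∧
      (∀ v k τ, 0 ≤ τ → τ ≤ 1 → ∃ d ∈ D, Serve L (edgePt (sg (rel R v)) k τ) d) ∧
      bdir I z0 r (sg R) ∈ D ∧ ∀ v k, ntree out v k = true → ∃ d ∈ D, Q v k d := by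
  classical
  set base : Fin 8 → Fin 3 → ℝ := fun v k =>
    if child out v k then load (flip v k) else dem v k with hbase
  have hbase0 : ∀ v k, 0 ≤ base v k := by
    intro v k
    simp only [hbase]
    split_ifs
    · exact hl0 _
    · exact hdem _ _
  have hcons' : ∀ v, v ≠ 0 → ∑ k, (if k = out v then 0 else base v k) ≤ load v := hcons
  have hroot' : ∀ k, base 0 k < r k := hroot
  -- choice of the small parameter
  obtain ⟨ε, hε, h1, h2⟩ : ∃ ε : ℝ, 0 < ε ∧ (∀ v, load v + (2 * 4 ^ lev v + 1) * ε < 1) ∧
      ∀ k, base 0 k + 4 ^ lev 0 * ε < r k := by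
    have e1 : ∀ v, ∀ᶠ ε : ℝ in 𝓝[>] 0, load v + (2 * 4 ^ lev v + 1) * ε < 1 := by
      intro v
      have hc : Continuous (fun ε : ℝ => load v + (2 * 4 ^ lev v + 1) * ε) := by fun_prop
      have : ∀ᶠ ε : ℝ in 𝓝 0, load v + (2 * 4 ^ lev v + 1) * ε < 1 :=
        hc.continuousAt.eventually_lt continuousAt_const (by simpa using hl1 v)
      exact this.filter_mono nhdsWithin_le_nhds
    have e2 : ∀ k, ∀ᶠ ε : ℝ in 𝓝[>] 0, base 0 k + 4 ^ lev 0 * ε < r k := by
      intro k
      have hc : Continuous (fun ε : ℝ => base 0 k + 4 ^ lev 0 * ε) := by fun_prop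
      have : ∀ᶠ ε : ℝ in 𝓝 0, base 0 k + 4 ^ lev 0 * ε < r k :=
        hc.continuousAt.eventually_lt continuousAt_const (by simpa using hroot' k)
      exact this.filter_mono nhdsWithin_le_nhds
    obtain ⟨ε, ⟨ha, hb⟩, hc⟩ :=
      (((eventually_all.2 e1).and (eventually_all.2 e2)).and self_mem_nhdsWithin).exists
    exact ⟨ε, hc, ha, hb⟩
  set s : Fin 8 → Fin 3 → ℝ := fun v k => base v k + 4 ^ lev v * ε with hs
  have hp4 : ∀ v, (1 : ℝ) ≤ 4 ^ lev v := fun v => one_le_pow₀ (by norm_num)
  set T : Fin 8 → ℝ := fun v => ∑ k, (if k = out v then 0 else s v k) with hT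
  have hTle : ∀ v, v ≠ 0 → T v ≤ load v + 2 * 4 ^ lev v * ε := by
    intro v hv
    have e : T v = ∑ k, (if k = out v then 0 else base v k) + 2 * 4 ^ lev v * ε := by
      have e1 : T v = ∑ k, (if k = out v then 0 else base v k) +
          ∑ k, (if k = out v then 0 else 4 ^ lev v * ε) := by
        rw [← Finset.sum_add_distrib]
        apply Finset.sum_congr rfl
        intro k _
        split_ifs <;> simp [hs]
      have e2 : ∑ k, (if k = out v then 0 else 4 ^ lev v * ε) = 2 * 4 ^ lev v * ε := by
        generalize out v = o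
        rw [Fin.sum_univ_three]
        fin_cases o <;> simp <;> ring
      rw [e1, e2]
    rw [e]
    have := hcons' v hv
    linarith
  have hT0 : ∀ v, 0 ≤ T v := by
    intro v
    apply Finset.sum_nonneg
    intro k _
    split_ifs
    · exact le_rfl
    · have := hbase0 v k
      have := hp4 v
      positivity
  set t : Fin 8 → Fin 3 → ℝ := fun v k =>
    if v = 0 then r k else if k = out v then 1 - ε - T v else s v k with ht
  have htR : ∀ k, t 0 k = r k := fun k => by simp [ht]
  have htge : ∀ v k, (v = 0 ∨ out v ≠ k) → base v k + 4 ^ lev v * ε ≤ t v k := by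
    intro v k hvk
    simp only [ht]
    split_ifs with hv hk
    · subst hv; exact (h2 k).le
    · rcases hvk with h | h
      · exact absurd h hv
      · exact absurd hk.symm h
    · exact le_rfl
  have ht0 : ∀ v k, 0 ≤ t v k := by
    intro v k
    by_cases hvk : v = 0 ∨ out v ≠ k
    · refine le_trans ?_ (htge v k hvk)
      have := hbase0 v k
      have := hp4 v
      positivity
    · push Not at hvk
      simp only [ht, hvk.1, hvk.2, if_false, if_true]
      have a1 := hTle v hvk.1
      have a2 := h1 v
      linarith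
  have htsum : ∀ v, ∑ k, t v k < 1 := by
    intro v
    by_cases hv : v = 0
    · subst hv
      simpa [ht] using hr
    · have e : ∑ k, t v k = 1 - ε := by
        have e1 : ∑ k, t v k = ∑ k, (if k = out v then 1 - ε - T v else 0) + T v := by
          rw [hT]
          simp only
          rw [← Finset.sum_add_distrib]
          apply Finset.sum_congr rfl
          intro k _
          simp only [ht, hv, if_false]
          split_ifs <;> simp [hT]
        rw [e1, Finset.sum_ite_eq' Finset.univ (out v)]
        simp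
      rw [e]; linarith
  have hnt : ∀ v k, child out v k = false → child out (flip v k) k = false →
      dem v k + ε ≤ t v k := by
    intro v k hc1 hc2
    have hvk : v = 0 ∨ out v ≠ k := by
      by_contra hcon
      push Not at hcon
      rw [child_flip hcon.1 hcon.2] at hc2
      exact Bool.noConfusion hc2
    have a1 := htge v k hvk
    have a2 : base v k = dem v k := by simp [hbase, hc1]
    have a3 : 1 * ε ≤ 4 ^ lev v * ε := mul_le_mul_of_nonneg_right (hp4 v) hε.le
    linarith
  have htree : ∀ v, v ≠ 0 → 1 ≤ t v (out v) + t (flip v (out v)) (out v) := by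
    intro v hv
    set k := out v with hk
    set u := flip v k with hu
    have hl := hlev v hv
    rw [← hk, ← hu] at hl
    have huk : u = 0 ∨ out u ≠ k := by
      by_contra hcon
      push Not at hcon
      have := hlev u hcon.1
      rw [hcon.2, hu, flip_flip, ← hu] at this
      omega
    have a1 := htge u k huk
    have hch : child out u k = true := child_flip hv hk.symm
    have a2 : base u k = load v := by
      simp only [hbase, hch, if_true]
      rw [hu, flip_flip]
    have a3 : t v k = 1 - ε - T v := by simp [ht, hv, hk]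
    have a4 := hTle v hv
    have a5 : (2 * 4 ^ lev v + 1 : ℝ) ≤ 4 ^ lev u := by
      have b1 : (4 : ℝ) ^ (lev v + 1) ≤ 4 ^ lev u := pow_le_pow_right₀ (by norm_num) hl
      rw [pow_succ] at b1
      have := hp4 v
      linarith
    have a6 := mul_le_mul_of_nonneg_right a5 hε.le
    rw [a3]
    rw [a2] at a1
    linarith
  -- the directions
  choose! w hwQ hwS using fun v k hvk => hprov v k hvk ε hε
  set N := Finset.univ.filter (fun p : Fin 8 × Fin 3 => ntree out p.1 p.2 = true) with hN
  refine ⟨Finset.univ.image (fun v => bdir I z0 (t v) (sg (rel R v))) ∪ N.image (fun p => w p.1 p.2),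
    ?_, ?_, ?_, ?_⟩
  · calc _ ≤ (Finset.univ.image (fun v => bdir I z0 (t v) (sg (rel R v)))).card +
          (N.image (fun p => w p.1 p.2)).card := Finset.card_union_le _ _
      _ ≤ 8 + 5 := by
          apply add_le_add
          · exact Finset.card_image_le.trans (by simp)
          · exact Finset.card_image_le.trans hcard
      _ = 13 := rfl
  · intro v k τ h0 h1'
    have hvert : ∀ u, bdir I z0 (t u) (sg (rel R u)) ∈
        Finset.univ.image (fun v => bdir I z0 (t v) (sg (rel R v))) ∪ N.image (fun p => w p.1 p.2) := by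
      intro u
      exact Finset.mem_union_left _ (Finset.mem_image_of_mem _ (Finset.mem_univ _))
    by_cases c1 : τ ≤ t v k
    · exact ⟨_, hvert v, box_cov h hz0 (isSign_sg (rel R v)) (ht0 v) (htsum v) k h0 c1⟩
    by_cases c2 : 1 - τ ≤ t (flip v k) k
    · refine ⟨_, hvert (flip v k), ?_⟩
      have := box_cov h hz0 (isSign_sg (rel R (flip v k))) (ht0 _) (htsum _) k (by linarith) c2
      rwa [edgePt_relflip, sub_sub_cancel] at this
    push Not at c1 c2
    have hch1 : child out v k = false := by
      by_contra hcon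
      rw [Bool.not_eq_false] at hcon
      simp only [child, decide_eq_true_eq] at hcon
      have := htree _ hcon.1
      rw [hcon.2, flip_flip] at this
      linarith
    have hch2 : child out (flip v k) k = false := by
      by_contra hcon
      rw [Bool.not_eq_false] at hcon
      simp only [child, decide_eq_true_eq, flip_flip] at hcon
      have := htree _ hcon.1
      rw [hcon.2] at this
      linarith
    have d1 := hnt v k hch1 hch2
    have d2 := hnt (flip v k) k hch2 (by rw [flip_flip]; exact hch1)
    by_cases hb : bit v k = false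
    · have hnv : ntree out v k = true := ntree_iff.2 ⟨hb, hch1, hch2⟩
      refine ⟨w v k, Finset.mem_union_right _ (Finset.mem_image.2 ⟨(v, k), ?_, rfl⟩),
        hwS v k hnv τ (by linarith) (by linarith)⟩
      simp [hN, hnv]
    · have hb' : bit (flip v k) k = false := by
        rw [bit_flip_self]; simpa using hb
      have hnv : ntree out (flip v k) k = true :=
        ntree_iff.2 ⟨hb', hch2, by rw [flip_flip]; exact hch1⟩
      refine ⟨w (flip v k) k,
        Finset.mem_union_right _ (Finset.mem_image.2 ⟨(flip v k, k), ?_, rfl⟩), ?_⟩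
      · simp [hN, hnv]
      · have := hwS (flip v k) k hnv (1 - τ) (by linarith) (by rw [flip_flip]; linarith)
        rwa [edgePt_relflip, sub_sub_cancel] at this
  · refine Finset.mem_union_left _ (Finset.mem_image.2 ⟨0, Finset.mem_univ _, ?_⟩)
    have : t 0 = r := funext htR
    rw [this, rel_zero]
  · intro v k hvk
    refine ⟨w v k, Finset.mem_union_right _ (Finset.mem_image.2 ⟨(v, k), ?_, rfl⟩),
      hwQ v k hvk⟩
    simp [hN, hvk]

end Pool.Agent.Lib.MP_5e7226_co.GB
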