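import Pool.Agent.Lib.MP_5e7226_co.GB.Tab

set_option autoImplicit false

open Set Filter Topology

namespace Pool.Agent.Lib.MP_5e7226_co.GB

/-- the directions of `EP`: all but a small part at the far end of the edge from `v`, from the
parameter `h` on, are covered by one direction with the property `Q` -/
def EP (L : Set E) (v : Fin 8) (k : Fin 3) (h : ℝ) (Q : E → Prop) : Prop :=
  ∀ ε : ℝ, 0 < ε → ∃ w, Q w ∧ ∀ τ, h ≤ τ → τ ≤ 1 - ε → Serve L (edgePt (sg v) k τ) w

/-- at most 13 directions which serve all edges of the cube -/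
def Cover (L : Set E) (D : Finset E) : Prop :=
  D.card ≤ 13 ∧ ∀ v k τ, 0 ≤ τ → τ ≤ 1 → ∃ d ∈ D, Serve L (edgePt (sg v) k τ) d

lemma dst_le (out : Fin 8 → Fin 3) (n : ℕ) (b : Fin 8) : dst out n b ≤ n := by
  induction n generalizing b with
  | zero => simp [dst]
  | succ n ih =>
    simp only [dst]
    split_ifs
    · omega
    · have := ih (flip b (out b)); omega

lemma boo_le (b : Bool) : (boo b : ℝ) ≤ 1 := by cases b <;> simp [boo]

lemma boo_nonneg (b : Bool) : (0 : ℝ) ≤ (boo b : ℝ) := by positivity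

lemma treeOK.lev {out : Fin 8 → Fin 3} (hT : treeOK out) (v : Fin 8) (hv : v ≠ 0) :
    8 - dst out 8 v < 8 - dst out 8 (flip v (out v)) := by
  have := hT.1 v hv
  have := dst_le out 8 v
  omega

lemma slotOK.ntree {out : Fin 8 → Fin 3} {b : Fin 8} {k : Fin 3} (s : slotOK out b k) :
    (bit b k = false ∧ ntree out b k = true) ∨
      (bit (flip b k) k = false ∧ GB.ntree out (flip b k) k = true) := by
  by_cases hb : bit b k = false
  · exact Or.inl ⟨hb, ntree_iff.2 ⟨hb, s.1, s.2.1⟩⟩
  · have hb' : bit (flip b k) k = false := by rw [bit_flip_self]; simpa using hb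
    exact Or.inr ⟨hb', ntree_iff.2 ⟨hb', s.2.1, by rw [flip_flip]; exact s.1⟩⟩

/-- the regular provider in relative coordinates -/
lemma reg_rel {L : Set E} {I : Fin 3 → E} (h : Cfg L I) (R v : Fin 8) (k : Fin 3) {a b : ℝ}
    (ha : 0 < a) (hb : b < 1) :
    ∃ w, ∀ τ, a ≤ τ → τ ≤ b → Serve L (edgePt (sg (rel R v)) k τ) w := by
  obtain ⟨w, hw⟩ := reg h (isSign_sg (rel R v)) k (ε := min a (1 - b)) (by
    apply lt_min ha; linarith)
  refine ⟨w, fun τ h1 h2 => hw τ ((min_le_left _ _).trans h1) ?_⟩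
  have := min_le_right a (1 - b)
  linarith

theorem net2 {L : Set E} {I : Fin 3 → E} (h : Cfg L I) {z0 : E} (hz0 : z0 ∈ interior L)
    (R : Fin 8) {out : Fin 8 → Fin 3} (hT : treeOK out) {b1 b2 : Fin 8} {k1 k2 : Fin 3}
    (s1 : slotOK out b1 k1) (s2 : slotOK out b2 k2)
    (hne : ¬ (k1 = k2 ∧ (b1 = b2 ∨ flip b1 k1 = b2))) {h1 h2 : ℝ} (h10 : 0 ≤ h1) (h20 : 0 ≤ h2)
    (h12 : h1 + h2 < 1) (r : Fin 3 → ℝ) (hr : ∑ k, r k < 1)
    (hroot : ∀ k, (if ent out 8 b1 k1 = k then h1 else 0) +
      (if ent out 8 b2 k2 = k then h2 else 0) < r k)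
    {Q1 Q2 : E → Prop} (p1 : EP L (rel R b1) k1 h1 Q1) (p2 : EP L (rel R b2) k2 h2 Q2) :
    ∃ D, Cover L D ∧ bdir I z0 r (sg R) ∈ D ∧ (∃ d ∈ D, Q1 d) ∧ ∃ d ∈ D, Q2 d := by
  classical
  set load : Fin 8 → ℝ := fun v => h1 * boo (onp out 8 b1 v) + h2 * boo (onp out 8 b2 v)
    with hload
  set dem : Fin 8 → Fin 3 → ℝ := fun v k =>
    h1 * boo (v == b1 && k == k1) + h2 * boo (v == b2 && k == k2) with hdem
  have hl0 : ∀ v, 0 ≤ load v := fun v =>
    add_nonneg (mul_nonneg h10 (boo_nonneg _)) (mul_nonneg h20 (boo_nonneg _))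
  have hd0 : ∀ v k, 0 ≤ dem v k := fun v k =>
    add_nonneg (mul_nonneg h10 (boo_nonneg _)) (mul_nonneg h20 (boo_nonneg _))
  have hl1 : ∀ v, load v < 1 := by
    intro v
    have a1 := mul_le_mul_of_nonneg_left (boo_le (onp out 8 b1 v)) h10
    have a2 := mul_le_mul_of_nonneg_left (boo_le (onp out 8 b2 v)) h20
    simp only [hload]
    linarith
  have hsplit : ∀ v k, (if child out v k then load (flip v k) else dem v k) =
      h1 * ((if child out v k then boo (onp out 8 b1 (flip v k)) else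
        boo (v == b1 && k == k1) : ℕ) : ℝ) +
      h2 * ((if child out v k then boo (onp out 8 b2 (flip v k)) else
        boo (v == b2 && k == k2) : ℕ) : ℝ) := by
    intro v k
    split_ifs <;> rfl
  have hcons : ∀ v, v ≠ 0 → ∑ k, (if k = out v then 0 else
      if child out v k then load (flip v k) else dem v k) ≤ load v := by
    intro v hv
    have c1 := s1.2.2.1 v hv
    have c2 := s2.2.2.1 v hv
    have e : ∑ k, (if k = out v then 0 else
        if child out v k then load (flip v k) else dem v k) =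
        h1 * ((∑ l, (if l = out v then 0 else if child out v l then boo (onp out 8 b1 (flip v l))
          else boo (v == b1 && l == k1)) : ℕ) : ℝ) +
        h2 * ((∑ l, (if l = out v then 0 else if child out v l then boo (onp out 8 b2 (flip v l))
          else boo (v == b2 && l == k2)) : ℕ) : ℝ) := by
      push_cast
      rw [Finset.mul_sum, Finset.mul_sum, ← Finset.sum_add_distrib]
      apply Finset.sum_congr rfl
      intro k _
      by_cases hk : k = out v
      · simp [hk]
      · simp only [hk, if_false]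
        rw [hsplit]
        push_cast
        rfl
    rw [e]
    have c1' := mul_le_mul_of_nonneg_left (Nat.cast_le (α := ℝ).2 c1) h10
    have c2' := mul_le_mul_of_nonneg_left (Nat.cast_le (α := ℝ).2 c2) h20
    exact add_le_add c1' c2'
  have hrt : ∀ k, (if child out 0 k then load (flip 0 k) else dem 0 k) < r k := by
    intro k
    rw [hsplit]
    have c1 := s1.2.2.2 k
    have c2 := s2.2.2.2 k
    have e1 : ((if child out 0 k then boo (onp out 8 b1 (flip 0 k)) else
        boo ((0 : Fin 8) == b1 && k == k1) : ℕ) : ℝ) ≤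
          if ent out 8 b1 k1 = k then 1 else 0 := by
      refine (Nat.cast_le (α := ℝ).2 c1).trans (le_of_eq ?_)
      by_cases hk : ent out 8 b1 k1 = k <;> simp [boo, hk]
    have e2 : ((if child out 0 k then boo (onp out 8 b2 (flip 0 k)) else
        boo ((0 : Fin 8) == b2 && k == k2) : ℕ) : ℝ) ≤
          if ent out 8 b2 k2 = k then 1 else 0 := by
      refine (Nat.cast_le (α := ℝ).2 c2).trans (le_of_eq ?_)
      by_cases hk : ent out 8 b2 k2 = k <;> simp [boo, hk]
    have e1' := mul_le_mul_of_nonneg_left e1 h10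
    have e2' := mul_le_mul_of_nonneg_left e2 h20
    have := hroot k
    rw [mul_ite, mul_one, mul_zero] at e1' e2'
    linarith
  have hb : ∀ (v b : Fin 8) (k l : Fin 3), boo (v == b && k == l) =
      if v = b ∧ k = l then 1 else 0 := by
    intro v b k l
    by_cases h1 : v = b <;> by_cases h2 : k = l <;> simp [boo, h1, h2]
  have hff : ∀ {v b : Fin 8} {k : Fin 3}, flip v k = b → v = flip b k := by
    intro v b k hvb
    rw [← hvb, flip_flip]
  have hfne : ∀ (v : Fin 8) (k : Fin 3), flip v k ≠ v := by decide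
  have hprov : ∀ v k, ntree out v k = true → ∀ ε : ℝ, 0 < ε → ∃ w,
      ((((v = b1 ∨ flip v k = b1) ∧ k = k1) → Q1 w) ∧
        (((v = b2 ∨ flip v k = b2) ∧ k = k2) → Q2 w)) ∧
      ∀ τ, dem v k + ε ≤ τ → τ ≤ 1 - dem (flip v k) k - ε →
        Serve L (edgePt (sg (rel R v)) k τ) w := by
    intro v k hvk ε hε
    by_cases c1 : (v = b1 ∨ flip v k = b1) ∧ k = k1
    · have c2 : ¬ ((v = b2 ∨ flip v k = b2) ∧ k = k2) := by
        rintro ⟨h2, rfl⟩
        obtain ⟨h1, rfl⟩ := c1
        apply hne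
        refine ⟨rfl, ?_⟩
        rcases h1 with rfl | h1
        · rcases h2 with h2 | h2
          · exact Or.inl h2
          · exact Or.inr h2
        · rcases h2 with rfl | h2
          · right; rw [← h1, flip_flip]
          · left; rw [← h1, ← h2]
      obtain ⟨w, hw1, hw2⟩ := p1 ε hε
      refine ⟨w, ⟨fun _ => hw1, fun hc => absurd hc c2⟩, ?_⟩
      obtain ⟨hv, rfl⟩ := c1
      intro τ t1 t2
      rcases hv with rfl | hv
      · apply hw2 τ
        · have : dem v k = h1 := by
            simp only [hdem, hb]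
            have : ¬ (v = b2 ∧ k = k2) := fun hc => c2 ⟨Or.inl hc.1, hc.2⟩
            simp [this]
          linarith
        · have := hd0 (flip v k) k
          linarith
      · have e : edgePt (sg (rel R v)) k τ = edgePt (sg (rel R b1)) k (1 - τ) := by
          rw [← hv, edgePt_relflip, sub_sub_cancel]
        rw [e]
        apply hw2
        · have : dem (flip v k) k = h1 := by
            simp only [hdem, hb]
            have : ¬ (flip v k = b2 ∧ k = k2) := fun hc => c2 ⟨Or.inr hc.1, hc.2⟩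
            simp [hv]
            intro a1 a2
            exact absurd ⟨hv.trans a1, a2⟩ this
          linarith
        · have := hd0 v k
          linarith
    by_cases c2 : (v = b2 ∨ flip v k = b2) ∧ k = k2
    · obtain ⟨w, hw1, hw2⟩ := p2 ε hε
      refine ⟨w, ⟨fun hc => absurd hc c1, fun _ => hw1⟩, ?_⟩
      obtain ⟨hv, rfl⟩ := c2
      intro τ t1 t2
      rcases hv with rfl | hv
      · apply hw2 τ
        · have : dem v k = h2 := by
            simp only [hdem, hb]
            have : ¬ (v = b1 ∧ k = k1) := fun hc => c1 ⟨Or.inl hc.1, hc.2⟩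
            simp [this]
          linarith
        · have := hd0 (flip v k) k
          linarith
      · have e : edgePt (sg (rel R v)) k τ = edgePt (sg (rel R b2)) k (1 - τ) := by
          rw [← hv, edgePt_relflip, sub_sub_cancel]
        rw [e]
        apply hw2
        · have : dem (flip v k) k = h2 := by
            simp only [hdem, hb]
            have : ¬ (flip v k = b1 ∧ k = k1) := fun hc => c1 ⟨Or.inr hc.1, hc.2⟩
            simp [hv]
            intro a1 a2
            exact absurd ⟨hv.trans a1, a2⟩ this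
          linarith
        · have := hd0 v k
          linarith
    · by_cases hlt : dem v k + ε ≤ 1 - dem (flip v k) k - ε
      · have a1 := hd0 v k
        have a2 := hd0 (flip v k) k
        obtain ⟨w, hw⟩ := reg_rel h R v k (a := dem v k + ε) (b := 1 - dem (flip v k) k - ε)
          (by linarith) (by linarith)
        exact ⟨w, ⟨fun hc => absurd hc c1, fun hc => absurd hc c2⟩, hw⟩
      · exact ⟨0, ⟨fun hc => absurd hc c1, fun hc => absurd hc c2⟩,
          fun τ t1 t2 => absurd (t1.trans t2) hlt⟩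
  obtain ⟨D, hD1, hD2, hD3, hD4⟩ := tree_net h hz0 R out (fun v => 8 - dst out 8 v)
    (fun v hv => hT.lev v hv) hT.2 load dem hd0 hl0 hl1 hcons r hr hrt
    (fun v k w => (((v = b1 ∨ flip v k = b1) ∧ k = k1) → Q1 w) ∧
        (((v = b2 ∨ flip v k = b2) ∧ k = k2) → Q2 w)) hprov
  refine ⟨D, ⟨hD1, fun v k τ t1 t2 => ?_⟩, hD3, ?_, ?_⟩
  · obtain ⟨d, hd, hs⟩ := hD2 (rel R v) k τ t1 t2
    rw [rel_rel] at hs
    exact ⟨d, hd, hs⟩
  · rcases s1.ntree with ⟨_, hn⟩ | ⟨_, hn⟩
    · obtain ⟨d, hd, hq, _⟩ := hD4 _ _ hn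
      exact ⟨d, hd, hq ⟨Or.inl rfl, rfl⟩⟩
    · obtain ⟨d, hd, hq, _⟩ := hD4 _ _ hn
      exact ⟨d, hd, hq ⟨Or.inr (flip_flip _ _), rfl⟩⟩
  · rcases s2.ntree with ⟨_, hn⟩ | ⟨_, hn⟩
    · obtain ⟨d, hd, _, hq⟩ := hD4 _ _ hn
      exact ⟨d, hd, hq ⟨Or.inl rfl, rfl⟩⟩
    · obtain ⟨d, hd, _, hq⟩ := hD4 _ _ hn
      exact ⟨d, hd, hq ⟨Or.inr (flip_flip _ _), rfl⟩⟩

end Pool.Agent.Lib.MP_5e7226_co.GB
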