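import Pool.Agent.Lib.MP_5e7226_co.GB.Net2

set_option autoImplicit false

open Set Filter Topology

namespace Pool.Agent.Lib.MP_5e7226_co.GB

/-- the direction serves the strong points of the axis `k` -/
def QA (L : Set E) (I : Fin 3 → E) (k : Fin 3) (w : E) : Prop :=
  ∀ s : Bool, Strong L I k (sb s) → Serve L (pt I k (sb s)) w

/-- both orientations of an edge -/
def EP2 (L : Set E) (v : Fin 8) (k : Fin 3) (h : ℝ) (Q : E → Prop) : Prop :=
  EP L v k h Q ∧ EP L (flip v k) k h Q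

lemma EP.mono {L : Set E} {v : Fin 8} {k : Fin 3} {h : ℝ} {Q Q' : E → Prop}
    (p : EP L v k h Q) (hQ : ∀ w, Q w → Q' w) : EP L v k h Q' := by
  intro ε hε
  obtain ⟨w, hw, hw2⟩ := p ε hε
  exact ⟨w, hQ w hw, hw2⟩

lemma EP2.mono {L : Set E} {v : Fin 8} {k : Fin 3} {h : ℝ} {Q Q' : E → Prop}
    (p : EP2 L v k h Q) (hQ : ∀ w, Q w → Q' w) : EP2 L v k h Q' :=
  ⟨p.1.mono hQ, p.2.mono hQ⟩

/-- the two edges are different -/
def Diff (v : Fin 8) (k : Fin 3) (u : Fin 8) (l : Fin 3) : Prop :=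
  ¬ (k = l ∧ (v = u ∨ flip v k = u))

/-- strong points on at most one side of each axis -/
def OneSide (L : Set E) (I : Fin 3 → E) : Prop :=
  ∀ k, ¬ (Strong L I k 1 ∧ Strong L I k (-1))

lemma qa_of {L : Set E} {I : Fin 3 → E} (ho : OneSide L I) {k : Fin 3} {s : Bool}
    (hs : Strong L I k (sb s)) {w : E} (hw : Serve L (pt I k (sb s)) w) : QA L I k w := by
  intro s' hs'
  have : s' = s := by
    cases s <;> cases s'
    · rfl
    · exact absurd ⟨by simpa [sb] using hs, by simpa [sb] using hs'⟩ (ho k)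
    · exact absurd ⟨by simpa [sb] using hs', by simpa [sb] using hs⟩ (ho k)
    · rfl
  rw [this]; exact hw

lemma qa_of_none {L : Set E} {I : Fin 3 → E} {k : Fin 3} (hn : ∀ s, ¬ Strong L I k (sb s))
    (w : E) : QA L I k w := fun s hs => absurd hs (hn s)

/-! ### finite facts -/

lemma exists_v0 : ∀ x y z : Bool,
    ∃ v : Fin 8, bit v 0 = x ∧ bit v 1 = y ∧ bit v 2 = z := by
  decide

lemma exists_v {i j m : Fin 3} (hij : i ≠ j) (him : i ≠ m) (hjm : j ≠ m) (x y z : Bool) :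
    ∃ v, bit v i = x ∧ bit v j = y ∧ bit v m = z := by
  obtain ⟨v, h0, h1, h2⟩ := exists_v0
    (if (0 : Fin 3) = i then x else if (0 : Fin 3) = j then y else z)
    (if (1 : Fin 3) = i then x else if (1 : Fin 3) = j then y else z)
    (if (2 : Fin 3) = i then x else if (2 : Fin 3) = j then y else z)
  have hv : ∀ l : Fin 3, bit v l = if l = i then x else if l = j then y else z := by
    intro l
    fin_cases l
    · exact h0
    · exact h1
    · exact h2
  refine ⟨v, ?_, ?_, ?_⟩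
  · rw [hv, if_pos rfl]
  · rw [hv, if_neg hij.symm, if_pos rfl]
  · rw [hv, if_neg him.symm, if_neg hjm.symm]

lemma bit_rel (R v : Fin 8) (k : Fin 3) : bit (rel R v) k = (bit v k ^^ bit R k) := by
  revert R v k; decide

lemma exists_third (i : Fin 3) : ∃ j m : Fin 3, i ≠ j ∧ i ≠ m ∧ j ≠ m := by
  revert i; decide

lemma exists_diff (v : Fin 8) (k m : Fin 3) (s : Bool) :
    ∃ u l, bit u m = s ∧ l ≠ m ∧ Diff v k u l := by
  unfold Diff
  revert v k m s; decide

lemma diff_rel {R v u : Fin 8} {k l : Fin 3} (h : Diff v k u l) :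
    ¬ (k = l ∧ (rel R v = rel R u ∨ flip (rel R v) k = rel R u)) := by
  rintro ⟨h1, h2⟩
  apply h
  refine ⟨h1, ?_⟩
  rcases h2 with h2 | h2
  · left; rw [← rel_rel R v, h2, rel_rel]
  · right; rw [← rel_rel R (flip v k), flip_rel, h2, rel_rel]

/-- the sign of a real number -/
noncomputable def sgB (x : ℝ) : Bool := decide (x < 0)

lemma sgB_mul (x : ℝ) : sb (sgB x) * x = |x| := by
  by_cases h : x < 0
  · simp [sgB, sb, h, abs_of_neg h]
  · simp only [sgB, sb, h, decide_false]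
    simp [abs_of_nonneg (not_lt.1 h)]

lemma eq_sgB {b : Bool} {x : ℝ} (hx : x ≠ 0) (h : sb b * x = |x|) : b = sgB x := by
  rcases lt_or_gt_of_ne hx with h1 | h1
  · cases b
    · rw [abs_of_neg h1] at h
      simp only [sb] at h
      norm_num at h
      linarith
    · simp [sgB, h1]
  · cases b
    · simp [sgB, h1.le]
    · rw [abs_of_pos h1] at h
      simp only [sb] at h
      norm_num at h
      linarith

/-! ### the nets -/

/-- the output of the nets for the sink axis `i` -/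
def Out (L : Set E) (I : Fin 3 → E) : Prop := ∃ D, Cover L D ∧ ∀ k, ∃ d ∈ D, QA L I k d

lemma forall3 {i j m : Fin 3} (hij : i ≠ j) (him : i ≠ m) (hjm : j ≠ m) {P : Fin 3 → Prop}
    (h1 : P i) (h2 : P j) (h3 : P m) : ∀ k, P k := by
  intro k
  rcases third hij him hjm k with rfl | rfl | rfl <;> assumption

lemma code_slot {c : ℕ} (hc : c ∈ codes) {b : Fin 8} {k : Fin 3}
    (h1 : child (tr c) b k = false) (h2 : child (tr c) (flip b k) k = false) :
    slotOK (tr c) b k := (codes_ok c hc).2 b k h1 h2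

/-- the four orientations -/
lemma good4_elim {c : ℕ} {i : Fin 3} {v : Fin 8} {k : Fin 3} {u : Fin 8} {l : Fin 3}
    (h : good4 c i v k u l = true) : ∃ b d, (b = v ∨ b = flip v k) ∧ (d = u ∨ d = flip u l) ∧
      good c i b k d l = true := by
  simp only [good4, Bool.or_eq_true] at h
  rcases h with ((h | h) | h) | h
  · exact ⟨_, _, Or.inl rfl, Or.inl rfl, h⟩
  · exact ⟨_, _, Or.inr rfl, Or.inl rfl, h⟩
  · exact ⟨_, _, Or.inl rfl, Or.inr rfl, h⟩
  · exact ⟨_, _, Or.inr rfl, Or.inr rfl, h⟩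

lemma diff_swap {v u b d : Fin 8} {k l : Fin 3} (h : ¬ (k = l ∧ (v = u ∨ flip v k = u)))
    (hb : b = v ∨ b = flip v k) (hd : d = u ∨ d = flip u l) :
    ¬ (k = l ∧ (b = d ∨ flip b k = d)) := by
  rintro ⟨rfl, h2⟩
  apply h
  refine ⟨rfl, ?_⟩
  rcases hb with rfl | rfl <;> rcases hd with rfl | rfl
  · exact h2
  · rcases h2 with h2 | h2
    · right; rw [h2, flip_flip]
    · left; rw [← flip_flip b k, h2, flip_flip]
  · rw [flip_flip] at h2; exact h2.symm
  · rw [flip_flip] at h2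
    rcases h2 with h2 | h2
    · left; rw [← flip_flip v k, h2, flip_flip]
    · right; rw [h2, flip_flip]

lemma EP2.pick {L : Set E} {v : Fin 8} {k : Fin 3} {h : ℝ} {Q : E → Prop} (p : EP2 L v k h Q)
    (R b : Fin 8) (hb : b = rel R v ∨ b = flip (rel R v) k) : EP L (rel R b) k h Q := by
  rcases hb with rfl | rfl
  · rw [rel_rel]; exact p.1
  · rw [flip_rel, rel_rel]; exact p.2

/-- free root -/
theorem freeF1 {L : Set E} {I : Fin 3 → E} (h : Cfg L I) {i j m : Fin 3} (hij : i ≠ j)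
    (him : i ≠ m) (hjm : j ≠ m) {v u : Fin 8} {k l : Fin 3} (hk : k ≠ j) (hl : l ≠ m)
    (hd : Diff v k u l) {h1 h2 : ℝ} (h10 : 0 ≤ h1) (h20 : 0 ≤ h2) (h12 : h1 + h2 < 1)
    {Q1 Q2 : E → Prop} (p1 : EP2 L v k h1 Q1) (p2 : EP2 L u l h2 Q2) :
    ∃ D, Cover L D ∧ (∃ d ∈ D, Q1 d) ∧ ∃ d ∈ D, Q2 d := by
  obtain ⟨z0, hz0⟩ := h.int
  have hf := f1 i j m hij him hjm (rel 0 v) k (rel 0 u) l hk hl (diff_rel hd)
  rw [List.any_eq_true] at hf
  obtain ⟨c, hc, hg⟩ := hf
  obtain ⟨b, d, hb, hdd, hg⟩ := good4_elim hg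
  simp only [good, Bool.and_eq_true, Bool.not_eq_true', bne_iff_ne] at hg
  obtain ⟨⟨⟨⟨⟨⟨g1, g2⟩, g3⟩, g4⟩, g5⟩, g6⟩, g7⟩ := hg
  obtain ⟨D, hD, -, hq1, hq2⟩ := net2 h hz0 0 (codes_ok c hc).1 (code_slot hc g1 g2)
    (code_slot hc g3 g4) (diff_swap (diff_rel hd) hb hdd) h10 h20 h12
    (fun k' => (if ent (tr c) 8 b k = k' then h1 else 0) +
      (if ent (tr c) 8 d l = k' then h2 else 0) + (1 - h1 - h2) / 4)
    (by
      rw [Finset.sum_add_distrib, Finset.sum_add_distrib, Finset.sum_ite_eq,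
        Finset.sum_ite_eq]
      simp only [Finset.mem_univ, if_true, Finset.sum_const, Finset.card_univ, Fintype.card_fin,
        nsmul_eq_mul]
      push_cast
      linarith)
    (by intro k'; linarith)
    (p1.pick 0 b hb) (p2.pick 0 d hdd)
  exact ⟨D, hD, hq1, hq2⟩

/-- the nearest corner of the point of the axis `i` -/
lemma exists_root (I : Fin 3 → E) {i j m : Fin 3} (hij : i ≠ j) (him : i ≠ m) (hjm : j ≠ m)
    (s : Bool) : ∃ R, bit R i = s ∧ sg R j * I i j = |I i j| ∧ sg R m * I i m = |I i m| := by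
  obtain ⟨R, h1, h2, h3⟩ := exists_v hij him hjm s (sgB (I i j)) (sgB (I i m))
  refine ⟨R, h1, ?_, ?_⟩
  · simp only [sg, h2, sgB_mul]
  · simp only [sg, h3, sgB_mul]

lemma root_serves {L : Set E} {I : Fin 3 → E} (h : Cfg L I) (ho : OneSide L I) {z0 : E}
    (hz0 : z0 ∈ interior L) {i j m : Fin 3} (hij : i ≠ j) (him : i ≠ m) (hjm : j ≠ m) {s : Bool}
    (hs : Strong L I i (sb s)) {R : Fin 8} (hR : bit R i = s) (hRj : sg R j * I i j = |I i j|)
    (hRm : sg R m * I i m = |I i m|) {r : Fin 3 → ℝ} (hr0 : ∀ k, 0 ≤ r k) (hr : ∑ k, r k < 1)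
    (hrj : (1 - |I i j|) / 2 ≤ r j) (hrm : (1 - |I i m|) / 2 ≤ r m) :
    QA L I i (bdir I z0 r (sg R)) := by
  apply qa_of ho hs
  have := uvl h hz0 (isSign_sg R) hr0 hr i (by
    intro l hl
    rcases third hij him hjm l with rfl | rfl | rfl
    · exact absurd rfl hl
    · rw [hRj]; exact hrj
    · rw [hRm]; exact hrm)
  have e : sg R i = sb s := by simp only [sg, hR]
  rwa [e] at this

/-- the sink is a strong point which is not centered -/
theorem sinkF1 {L : Set E} {I : Fin 3 → E} (h : Cfg L I) (ho : OneSide L I) {i j m : Fin 3}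
    (hij : i ≠ j) (him : i ≠ m) (hjm : j ≠ m) {s : Bool} (hs : Strong L I i (sb s))
    (hnc : 0 < |I i j| + |I i m|) {v u : Fin 8} {k l : Fin 3} (hk : k ≠ j) (hl : l ≠ m)
    (hd : Diff v k u l) {h1 h2 : ℝ} (h10 : 0 ≤ h1) (h20 : 0 ≤ h2) (h1l : h1 < 1 / 2)
    (h2l : h2 < 1 / 2) {Q1 Q2 : E → Prop} (p1 : EP2 L v k h1 Q1) (p2 : EP2 L u l h2 Q2) :
    ∃ D, Cover L D ∧ (∃ d ∈ D, QA L I i d) ∧ (∃ d ∈ D, Q1 d) ∧ ∃ d ∈ D, Q2 d := by
  obtain ⟨z0, hz0⟩ := h.int
  obtain ⟨R, hR, hRj, hRm⟩ := exists_root I hij him hjm s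
  have hf := f1 i j m hij him hjm (rel R v) k (rel R u) l hk hl (diff_rel hd)
  rw [List.any_eq_true] at hf
  obtain ⟨c, hc, hg⟩ := hf
  obtain ⟨b, d, hb, hdd, hg⟩ := good4_elim hg
  simp only [good, Bool.and_eq_true, Bool.not_eq_true', bne_iff_ne] at hg
  obtain ⟨⟨⟨⟨⟨⟨g1, g2⟩, g3⟩, g4⟩, g5⟩, g6⟩, g7⟩ := hg
  set A : ℝ := max ((1 - |I i j|) / 2) (max h1 h2) with hA
  set B : ℝ := max ((1 - |I i m|) / 2) (max h1 h2) with hB
  have hj0 := abs_nonneg (I i j)
  have hm0 := abs_nonneg (I i m)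
  have hH : max h1 h2 < 1 / 2 := max_lt h1l h2l
  have hAB : A + B < 1 := by
    have a1 : A ≤ 1 / 2 := max_le (by linarith) hH.le
    have b1 : B ≤ 1 / 2 := max_le (by linarith) hH.le
    by_cases hj : 0 < |I i j|
    · have : A < 1 / 2 := max_lt (by linarith) hH
      linarith
    · have : B < 1 / 2 := max_lt (by linarith) hH
      linarith
  have hA1 : h1 ≤ A := (le_max_left _ _).trans (le_max_right _ _)
  have hA2 : h2 ≤ A := (le_max_right _ _).trans (le_max_right _ _)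
  have hB1 : h1 ≤ B := (le_max_left _ _).trans (le_max_right _ _)
  have hB2 : h2 ≤ B := (le_max_right _ _).trans (le_max_right _ _)
  set δ : ℝ := (1 - A - B) / 4 with hδ
  have hδ0 : 0 < δ := by rw [hδ]; linarith
  set r : Fin 3 → ℝ := fun k' => (if k' = j then A else if k' = m then B else 0) + δ with hr
  have rj : r j = A + δ := by simp [hr]
  have rm : r m = B + δ := by simp [hr, hjm.symm]
  have ri : r i = δ := by simp [hr, hij, him]
  have hsum : ∑ k', r k' < 1 := by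
    rw [sum3 hij him hjm, ri, rj, rm]
    linarith
  have hr0 : ∀ k', 0 ≤ r k' := by
    intro k'
    rcases third hij him hjm k' with e | e | e <;> rw [e]
    · rw [ri]; exact hδ0.le
    · rw [rj]; linarith
    · rw [rm]; linarith
  obtain ⟨D, hD, hroot, hq1, hq2⟩ := net2 h hz0 R (codes_ok c hc).1 (code_slot hc g1 g2)
    (code_slot hc g3 g4) (diff_swap (diff_rel hd) hb hdd) h10 h20 (by linarith) r hsum
    (by
      intro k'
      rcases third hij him hjm k' with e | e | e <;> rw [e]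
      · rw [ri, if_neg g5, if_neg g6]; linarith
      · rw [rj]
        split_ifs with e1 e2
        · exact absurd (e1.trans e2.symm) g7
        · linarith
        · linarith
        · linarith
      · rw [rm]
        split_ifs with e1 e2
        · exact absurd (e1.trans e2.symm) g7
        · linarith
        · linarith
        · linarith)
    (p1.pick R b hb) (p2.pick R d hdd)
  refine ⟨D, hD, ⟨_, hroot, ?_⟩, hq1, hq2⟩
  apply root_serves h ho hz0 hij him hjm hs hR hRj hRm hr0 hsum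
  · rw [rj]
    have := le_max_left ((1 - |I i j|) / 2) (max h1 h2)
    linarith
  · rw [rm]
    have := le_max_left ((1 - |I i m|) / 2) (max h1 h2)
    linarith

/-- the axis `m` has the four edges of one face at the cost `1/2` -/
def Fl (L : Set E) (I : Fin 3 → E) (m : Fin 3) : Prop :=
  ∃ s, ∀ u l, bit u m = s → l ≠ m → ∀ hh : ℝ, 1 / 2 < hh → hh ≤ 1 → EP2 L u l hh (QA L I m)

/-- the axis `j` has an edge at a cost less than `1/2` -/
def Rg (L : Set E) (I : Fin 3 → E) (j : Fin 3) : Prop :=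
  ∃ v k, ∃ hh : ℝ, k ≠ j ∧ 0 ≤ hh ∧ hh < 1 / 2 ∧ EP2 L v k hh (QA L I j)

/-- the sink is a strong point which is not centered, with a centered flow -/
theorem sinkF4 {L : Set E} {I : Fin 3 → E} (h : Cfg L I) (ho : OneSide L I) {i j m : Fin 3}
    (hij : i ≠ j) (him : i ≠ m) (hjm : j ≠ m) {s : Bool} (hs : Strong L I i (sb s))
    (hnc : 0 < |I i m|) (hj : Rg L I j) (hm : Fl L I m) : Out L I := by
  obtain ⟨z0, hz0⟩ := h.int
  obtain ⟨R, hR, hRj, hRm⟩ := exists_root I hij him hjm s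
  obtain ⟨v, k, h1, hk, h10, h1l, p1⟩ := hj
  obtain ⟨s', hm⟩ := hm
  have hf := f4 i j m hij him hjm (rel R v) k hk (s' ^^ bit R m)
  rw [List.any_eq_true] at hf
  obtain ⟨c, hc, hg⟩ := hf
  rw [decide_eq_true_eq] at hg
  obtain ⟨u, l, hu, hl, hd, hg⟩ := hg
  have hg' : ∃ b, (b = rel R v ∨ b = flip (rel R v) k) ∧ goodf c j m b k u l = true := by
    simp only [Bool.or_eq_true] at hg
    rcases hg with hg | hg
    · exact ⟨_, Or.inl rfl, hg⟩
    · exact ⟨_, Or.inr rfl, hg⟩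
  obtain ⟨b, hb, hg⟩ := hg'
  simp only [goodf, Bool.and_eq_true, Bool.not_eq_true', beq_iff_eq] at hg
  obtain ⟨⟨⟨⟨⟨g1, g2⟩, g3⟩, g4⟩, g5⟩, g6⟩ := hg
  set B : ℝ := max ((1 - |I i m|) / 2) h1 with hB
  have hj0 := abs_nonneg (I i j)
  have hBl : B < 1 / 2 := max_lt (by linarith) h1l
  have hB1 : h1 ≤ B := le_max_right _ _
  have hB2 : (1 - |I i m|) / 2 ≤ B := le_max_left _ _
  set δ : ℝ := (1 / 2 - B) / 8 with hδ
  have hδ0 : 0 < δ := by rw [hδ]; linarith
  have hδ1 : B + 8 * δ = 1 / 2 := by rw [hδ]; ring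
  have p2 : EP2 L (rel R u) l (1 / 2 + δ) (QA L I m) := by
    apply hm _ _ _ hl _ (by linarith) (by linarith)
    rw [bit_rel, hu, Bool.xor_assoc, Bool.xor_self, Bool.xor_false]
  have hd' : ¬ (k = l ∧ (b = u ∨ flip b k = u)) := diff_swap hd hb (Or.inl rfl)
  set r : Fin 3 → ℝ :=
    fun k' => (if k' = j then 1 / 2 + δ else if k' = m then B else 0) + δ with hr
  have rj : r j = 1 / 2 + δ + δ := by simp [hr]
  have rm : r m = B + δ := by simp [hr, hjm.symm]
  have ri : r i = δ := by simp [hr, hij, him]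
  have hsum : ∑ k', r k' < 1 := by
    rw [sum3 hij him hjm, ri, rj, rm]
    linarith
  have hr0 : ∀ k', 0 ≤ r k' := by
    intro k'
    rcases third hij him hjm k' with e | e | e <;> rw [e]
    · rw [ri]; exact hδ0.le
    · rw [rj]; linarith
    · rw [rm]; linarith
  obtain ⟨D, hD, hroot, hq1, hq2⟩ := net2 h hz0 R (codes_ok c hc).1 (code_slot hc g1 g2)
    (code_slot hc g3 g4) hd' h10 (by linarith : (0 : ℝ) ≤ 1 / 2 + δ) (by linarith) r hsum
    (by
      rw [g5, g6]
      intro k'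
      rcases third hij him hjm k' with e | e | e <;> rw [e]
      · rw [ri, if_neg him.symm, if_neg hij.symm]; linarith
      · rw [rj, if_neg hjm.symm, if_pos rfl]; linarith
      · rw [rm, if_pos rfl, if_neg hjm]; linarith)
    (p1.pick R b hb) (by simpa using p2.1)
  refine ⟨D, hD, forall3 hij him hjm ⟨_, hroot, ?_⟩ hq1 hq2⟩
  apply root_serves h ho hz0 hij him hjm hs hR hRj hRm hr0 hsum
  · rw [rj]; linarith
  · rw [rm]; linarith

end Pool.Agent.Lib.MP_5e7226_co.GB
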