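import Pool.Agent.Lib.MP_5e7226_co.GB.Sel

set_option autoImplicit false

open Set Filter Topology

namespace Pool.Agent.Lib.MP_5e7226_co.GB

/-- a centered strong or not strong axis -/
def Cen (I : Fin 3 → E) (k : Fin 3) : Prop := ∀ l, l ≠ k → I k l = 0

lemma abs_I_le {L : Set E} {I : Fin 3 → E} (h : Cfg L I) {k l : Fin 3} (hl : l ≠ k) :
    |I k l| ≤ 1 := by
  have := h.box _ (h.seg k 1 (by simp)) l
  rwa [pt_ne _ hl] at this

lemma sg_eq {v : Fin 8} {k : Fin 3} {s : Bool} (h : bit v k = s) : sg v k = sb s := by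
  simp only [sg, h]

lemma sg_mul_abs (v : Fin 8) (k : Fin 3) (x : ℝ) : -|x| ≤ sg v k * x := by
  rcases isSign_sg v k with h | h <;> rw [h]
  · rw [one_mul]; exact neg_abs_le x
  · rw [neg_one_mul]; exact neg_le_neg (le_abs_self x)

/-- edges near a strong point -/
lemma sblEP2 {L : Set E} {I : Fin 3 → E} (h : Cfg L I) (ho : OneSide L I) {i j k : Fin 3}
    (hij : i ≠ j) (hik : i ≠ k) (hjk : j ≠ k) {s : Bool} (hs : Strong L I i (sb s)) {v : Fin 8}
    (hv : bit v i = s) (hd : (1 - sg v j * I i j) + (1 + |I i k|) ≤ 2) {hh : ℝ}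
    (h1 : (1 - sg v j * I i j) / 2 < hh) (h2 : hh ≤ 1) : EP2 L v k hh (QA L I i) := by
  have key : ∀ u : Fin 8, bit u i = s → sg u j = sg v j → EP L (flip u k) k hh (QA L I i) := by
    intro u hu huj ε hε
    have hk := sg_mul_abs u k (I i k)
    obtain ⟨w, hw1, hw2⟩ := sbl h (isSign_sg u) hij hik hjk (hh := hh) (ε := ε)
      (by rw [huj]; linarith) (by rw [huj]; exact h1) h2 hε
    rw [sg_eq hu] at hw1
    refine ⟨w, qa_of ho hs hw1, fun τ t1 t2 => ?_⟩
    rw [edgePt_flip]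
    exact hw2 _ (by linarith) (by linarith)
  constructor
  · have := key (flip v k) (by rw [bit_flip_ne v hik]; exact hv) (sg_flip_ne v hjk)
    rwa [flip_flip] at this
  · exact key v hv rfl

lemma exists_other : ∀ i l : Fin 3, ∃ j, i ≠ j ∧ j ≠ l := by decide

/-- a strong point which is not centered has a near edge -/
lemma near {L : Set E} {I : Fin 3 → E} (h : Cfg L I) (ho : OneSide L I) {i j k : Fin 3}
    (hij : i ≠ j) (hik : i ≠ k) (hjk : j ≠ k) {s : Bool} (hs : Strong L I i (sb s))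
    (h0 : I i j ≠ 0) (hle : |I i k| ≤ |I i j|) :
    ∃ v, ∃ hh : ℝ, 0 ≤ hh ∧ hh < 1 / 2 ∧ EP2 L v k hh (QA L I i) := by
  obtain ⟨v, hv1, hv2, -⟩ := exists_v hij hik hjk s (sgB (I i j)) false
  have e : sg v j * I i j = |I i j| := by rw [sg_eq hv2, sgB_mul]
  have hj1 := abs_I_le h hij.symm
  have hpos := abs_pos.2 h0
  refine ⟨v, (1 - |I i j| / 2) / 2, by linarith, by linarith, ?_⟩
  apply sblEP2 h ho hij hik hjk hs hv1
  · rw [e]; linarith
  · rw [e]; linarith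
  · linarith

lemma rg_of {L : Set E} {I : Fin 3 → E} (h : Cfg L I) (ho : OneSide L I) {i : Fin 3} {s : Bool}
    (hs : Strong L I i (sb s)) (hn : ¬ Cen I i) : Rg L I i := by
  obtain ⟨j, k, hij, hik, hjk⟩ := exists_third i
  by_cases hle : |I i k| ≤ |I i j|
  · have h0 : I i j ≠ 0 := by
      intro h0
      apply hn
      rw [h0, abs_zero] at hle
      intro l hl
      rcases third hij hik hjk l with rfl | rfl | rfl
      · exact absurd rfl hl
      · exact h0
      · exact abs_eq_zero.1 (le_antisymm hle (abs_nonneg _))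
    obtain ⟨v, hh, a1, a2, a3⟩ := near h ho hij hik hjk hs h0 hle
    exact ⟨v, k, hh, hik.symm, a1, a2, a3⟩
  · push Not at hle
    have h0 : I i k ≠ 0 := by
      intro h0
      rw [h0, abs_zero] at hle
      exact absurd (abs_nonneg _) (not_le.2 hle)
    obtain ⟨v, hh, a1, a2, a3⟩ := near h ho hik hij hjk.symm hs h0 hle.le
    exact ⟨v, j, hh, hij.symm, a1, a2, a3⟩

lemma fl_of {L : Set E} {I : Fin 3 → E} (h : Cfg L I) (ho : OneSide L I) {i : Fin 3} {s : Bool}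
    (hs : Strong L I i (sb s)) (hc : Cen I i) : Fl L I i := by
  refine ⟨s, fun u l hu hl hh h1 h2 => ?_⟩
  obtain ⟨j, hij, hjl⟩ := exists_other i l
  apply sblEP2 h ho hij hl.symm hjl hs hu
  · rw [hc j hij.symm, hc l hl]; simp; norm_num
  · rw [hc j hij.symm]; linarith
  · exact h2

lemma ep_any {L : Set E} {I : Fin 3 → E} (h : Cfg L I) {Q : E → Prop} (hQ : ∀ w, Q w)
    (v : Fin 8) (k : Fin 3) {hh : ℝ} (h0 : 0 < hh) : EP2 L v k hh Q := by
  have key : ∀ u : Fin 8, EP L u k hh Q := by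
    intro u ε hε
    obtain ⟨w, hw⟩ := reg h (isSign_sg u) k (ε := min hh ε) (lt_min h0 hε)
    refine ⟨w, hQ w, fun τ t1 t2 => hw τ ((min_le_left _ _).trans t1) ?_⟩
    have := min_le_right hh ε
    linarith
  exact ⟨key v, key _⟩

lemma rg_none {L : Set E} {I : Fin 3 → E} (h : Cfg L I) {i : Fin 3}
    (hn : ∀ s, ¬ Strong L I i (sb s)) : Rg L I i := by
  obtain ⟨j, k, hij, hik, hjk⟩ := exists_third i
  exact ⟨0, j, 1 / 4, hij.symm, by norm_num, by norm_num,
    ep_any h (qa_of_none hn) 0 j (by norm_num)⟩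

lemma fl_none {L : Set E} {I : Fin 3 → E} (h : Cfg L I) {i : Fin 3}
    (hn : ∀ s, ¬ Strong L I i (sb s)) : Fl L I i := by
  refine ⟨false, fun u l _ _ hh h1 _ => ep_any h (qa_of_none hn) u l (by linarith)⟩

/-- tiny cost from directions covering all but the ends -/
lemma ep2_of_tiny {L : Set E} {v : Fin 8} {k : Fin 3} {Q : E → Prop}
    (p : ∀ ε : ℝ, 0 < ε → ∃ w, Q w ∧ ∀ τ, ε ≤ τ → τ ≤ 1 - ε → Serve L (edgePt (sg v) k τ) w)
    {hh : ℝ} (h0 : 0 < hh) : EP2 L v k hh Q := by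
  constructor
  · intro ε hε
    obtain ⟨w, hw1, hw2⟩ := p (min hh ε) (lt_min h0 hε)
    refine ⟨w, hw1, fun τ t1 t2 => hw2 τ ((min_le_left _ _).trans t1) ?_⟩
    have := min_le_right hh ε
    linarith
  · intro ε hε
    obtain ⟨w, hw1, hw2⟩ := p (min hh ε) (lt_min h0 hε)
    refine ⟨w, hw1, fun τ t1 t2 => ?_⟩
    rw [edgePt_flip]
    have a1 := min_le_right hh ε
    have a2 := min_le_left hh ε
    exact hw2 _ (by linarith) (by linarith)

/-- half of the statement on two centered axes -/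
lemma t1half {L : Set E} {I : Fin 3 → E} (h : Cfg L I) (ho : OneSide L I) {i j m : Fin 3}
    (hij : i ≠ j) (him : i ≠ m) (hjm : j ≠ m) {s : Bool} (hs : Strong L I j (sb s))
    (cj : Cen I j) (cm : Cen I m) :
    ∃ v k, k ≠ j ∧ bit v j = s ∧ (∀ hh : ℝ, 0 < hh → EP2 L v k hh (QA L I j)) ∧
      (k = m ∨ (k = i ∧ sb s * I i j < |I i m| ∧ sg v m * I i m = |I i m|)) := by
  obtain ⟨v, hv1, hv2, hv3⟩ := exists_v hij him hjm false s (sgB (I i m))
  have e : sg v m * I i m = |I i m| := by rw [sg_eq hv3, sgB_mul]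
  have ej : sg v j = sb s := sg_eq hv2
  by_cases hb : |I i m| ≤ sb s * I i j
  · refine ⟨v, m, hjm.symm, hv2, ?_, Or.inl rfl⟩
    intro hh h0
    apply ep2_of_tiny _ h0
    intro ε hε
    obtain ⟨w, hw1, hw2⟩ := t1a h (isSign_sg v) hij him hjm (cj i hij) (cj m hjm.symm)
      (cm i him) (cm j hjm) (by rw [ej]; exact hb) hε
    rw [ej] at hw1
    exact ⟨w, qa_of ho hs hw1, hw2⟩
  · push Not at hb
    refine ⟨v, i, hij, hv2, ?_, Or.inr ⟨rfl, hb, e⟩⟩
    intro hh h0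
    apply ep2_of_tiny _ h0
    intro ε hε
    obtain ⟨w, hw1, hw2⟩ := t1b h (isSign_sg v) hij him hjm (cj i hij) (cj m hjm.symm)
      (cm i him) (cm j hjm) (by rw [ej]; exact hb.le) e hε
    rw [ej] at hw1
    exact ⟨w, qa_of ho hs hw1, hw2⟩

/-- two centered axes: two different edges at tiny cost -/
lemma t1pair {L : Set E} {I : Fin 3 → E} (h : Cfg L I) (ho : OneSide L I) {i j m : Fin 3}
    (hij : i ≠ j) (him : i ≠ m) (hjm : j ≠ m) {s t : Bool} (hs : Strong L I j (sb s))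
    (ht : Strong L I m (sb t)) (cj : Cen I j) (cm : Cen I m) :
    ∃ v k u l, k ≠ j ∧ l ≠ m ∧ Diff v k u l ∧ (∀ hh : ℝ, 0 < hh → EP2 L v k hh (QA L I j)) ∧
      (∀ hh : ℝ, 0 < hh → EP2 L u l hh (QA L I m)) := by
  obtain ⟨v, k, a1, a2, a3, a4⟩ := t1half h ho hij him hjm hs cj cm
  obtain ⟨u, l, b1, b2, b3, b4⟩ := t1half h ho him hij hjm.symm ht cm cj
  refine ⟨v, k, u, l, a1, b1, ?_, a3, b3⟩
  rintro ⟨rfl, huv⟩
  rcases a4 with rfl | ⟨rfl, a5, a6⟩
  · exact b1 rfl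
  rcases b4 with rfl | ⟨-, b5, b6⟩
  · exact a1 rfl
  have hbits : ∀ l, l ≠ k → sg v l = sg u l := by
    intro l hl
    rcases huv with rfl | huv
    · rfl
    · rw [← huv, sg_flip_ne _ hl]
  have e1 : sb s = sg u j := by rw [← sg_eq a2]; exact hbits j hij.symm
  have e2 : sb t = sg v m := by rw [← sg_eq b2]; exact (hbits m him.symm).symm
  rw [e1, b6] at a5
  rw [e2, a6] at b5
  exact absurd (a5.trans b5) (lt_irrefl _)

end Pool.Agent.Lib.MP_5e7226_co.GB
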