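import Pool.Agent.Lib.MP_5e7226_co.GB.Sel2

set_option autoImplicit false

open Set Filter Topology

namespace Pool.Agent.Lib.MP_5e7226_co.GB

/-- a rigid and a flexible axis, the third axis is free -/
lemma sel_rf {L : Set E} {I : Fin 3 → E} (h : Cfg L I) {i j m : Fin 3} (hij : i ≠ j)
    (him : i ≠ m) (hjm : j ≠ m) (hn : ∀ s, ¬ Strong L I i (sb s)) (hj : Rg L I j)
    (hm : Fl L I m) : Out L I := by
  obtain ⟨v, k, hh, hk, h0, h1, p⟩ := hj
  obtain ⟨s, hm⟩ := hm
  obtain ⟨u, l, hu, hl, hd⟩ := exists_diff v k m s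
  have p2 := hm u l hu hl (1 / 2 + (1 / 2 - hh) / 2) (by linarith) (by linarith)
  obtain ⟨D, hD, q1, q2⟩ := freeF1 h hij him hjm hk hl hd h0 (by linarith) (by linarith) p p2
  have ⟨d, hdD, _⟩ := q1
  exact ⟨D, hD, forall3 hij him hjm ⟨d, hdD, qa_of_none hn d⟩ q1 q2⟩

/-- two rigid axes with strong points which are not centered, the third axis is free -/
lemma sel_nn {L : Set E} {I : Fin 3 → E} (h : Cfg L I) (ho : OneSide L I) {i j m : Fin 3}
    (hij : i ≠ j) (him : i ≠ m) (hjm : j ≠ m) (hn : ∀ s, ¬ Strong L I i (sb s)) {s t : Bool}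
    (hs : Strong L I j (sb s)) (ht : Strong L I m (sb t)) (cj : ¬ Cen I j) (cm : ¬ Cen I m) :
    Out L I := by
  obtain ⟨v, k, hh, hk, h0, h1, p⟩ := rg_of h ho hs cj
  obtain ⟨u, l, gg, hl, g0, g1, q⟩ := rg_of h ho ht cm
  by_cases hd : Diff v k u l
  · obtain ⟨D, hD, q1, q2⟩ := freeF1 h hij him hjm hk hl hd h0 g0 (by linarith) p q
    have ⟨d, hdD, _⟩ := q1
    exact ⟨D, hD, forall3 hij him hjm ⟨d, hdD, qa_of_none hn d⟩ q1 q2⟩
  · -- the same edge: the axis `j` becomes the sink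
    obtain ⟨u', l', -, hl', hd'⟩ := exists_diff u l i false
    have hnc : 0 < |I j m| + |I j i| := by
      by_contra hcon
      push Not at hcon
      have a1 := abs_nonneg (I j m)
      have a2 := abs_nonneg (I j i)
      apply cj
      intro l hl
      rcases third hij him hjm l with rfl | rfl | rfl
      · exact abs_eq_zero.1 (by linarith)
      · exact absurd rfl hl
      · exact abs_eq_zero.1 (by linarith)
    obtain ⟨D, hD, q0, q1, q2⟩ := sinkF1 h ho hjm hij.symm him.symm hs hnc hl hl' hd' g0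
      (by norm_num : (0 : ℝ) ≤ 1 / 4) g1 (by norm_num) q
      (ep_any h (qa_of_none hn) u' l' (by norm_num : (0 : ℝ) < 1 / 4))
    exact ⟨D, hD, forall3 hij him hjm q2 q0 q1⟩

/-- some axis is free -/
theorem sel_free {L : Set E} {I : Fin 3 → E} (h : Cfg L I) (ho : OneSide L I) {i : Fin 3}
    (hn : ∀ s, ¬ Strong L I i (sb s)) : Out L I := by
  obtain ⟨j, m, hij, him, hjm⟩ := exists_third i
  by_cases hj : ∀ s, ¬ Strong L I j (sb s)
  · by_cases hm : ∀ s, ¬ Strong L I m (sb s)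
    · exact sel_rf h hij him hjm hn (rg_none h hj) (fl_none h hm)
    · push Not at hm
      obtain ⟨t, ht⟩ := hm
      by_cases cm : Cen I m
      · exact sel_rf h hij him hjm hn (rg_none h hj) (fl_of h ho ht cm)
      · exact sel_rf h him hij hjm.symm hn (rg_of h ho ht cm) (fl_none h hj)
  push Not at hj
  obtain ⟨s, hs⟩ := hj
  by_cases hm : ∀ s, ¬ Strong L I m (sb s)
  · by_cases cj : Cen I j
    · exact sel_rf h him hij hjm.symm hn (rg_none h hm) (fl_of h ho hs cj)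
    · exact sel_rf h hij him hjm hn (rg_of h ho hs cj) (fl_none h hm)
  push Not at hm
  obtain ⟨t, ht⟩ := hm
  by_cases cj : Cen I j
  · by_cases cm : Cen I m
    · obtain ⟨v, k, u, l, a1, a2, a3, a4, a5⟩ := t1pair h ho hij him hjm hs ht cj cm
      obtain ⟨D, hD, q1, q2⟩ := freeF1 h hij him hjm a1 a2 a3
        (by norm_num : (0 : ℝ) ≤ 1 / 4) (by norm_num : (0 : ℝ) ≤ 1 / 4) (by norm_num)
        (a4 _ (by norm_num)) (a5 _ (by norm_num))
      have ⟨d, hdD, _⟩ := q1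
      exact ⟨D, hD, forall3 hij him hjm ⟨d, hdD, qa_of_none hn d⟩ q1 q2⟩
    · exact sel_rf h him hij hjm.symm hn (rg_of h ho ht cm) (fl_of h ho hs cj)
  · by_cases cm : Cen I m
    · exact sel_rf h hij him hjm hn (rg_of h ho hs cj) (fl_of h ho ht cm)
    · exact sel_nn h ho hij him hjm hn hs ht cj cm

/-- not centered in coordinates -/
lemma not_cen {I : Fin 3 → E} {i j m : Fin 3} (hij : i ≠ j) (him : i ≠ m) (hjm : j ≠ m)
    (hc : ¬ Cen I i) : 0 < |I i j| + |I i m| := by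
  by_contra hcon
  push Not at hcon
  have a1 := abs_nonneg (I i j)
  have a2 := abs_nonneg (I i m)
  apply hc
  intro l hl
  rcases third hij him hjm l with rfl | rfl | rfl
  · exact absurd rfl hl
  · exact abs_eq_zero.1 (by linarith)
  · exact abs_eq_zero.1 (by linarith)

/-- no axis is centered -/
lemma sel_nnn {L : Set E} {I : Fin 3 → E} (h : Cfg L I) (ho : OneSide L I) {i j m : Fin 3}
    (hij : i ≠ j) (him : i ≠ m) (hjm : j ≠ m) {r s t : Bool} (hr : Strong L I i (sb r))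
    (hs : Strong L I j (sb s)) (ht : Strong L I m (sb t)) (ci : ¬ Cen I i) (cj : ¬ Cen I j)
    (cm : ¬ Cen I m) : Out L I := by
  obtain ⟨v, k, hh, hk, h0, h1, p⟩ := rg_of h ho hs cj
  obtain ⟨u, l, gg, hl, g0, g1, q⟩ := rg_of h ho ht cm
  by_cases hd : Diff v k u l
  · obtain ⟨D, hD, q0, q1, q2⟩ := sinkF1 h ho hij him hjm hr (not_cen hij him hjm ci) hk hl hd
      h0 g0 h1 g1 p q
    exact ⟨D, hD, forall3 hij him hjm q0 q1 q2⟩
  · -- the same edge, parallel to `i`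
    unfold Diff at hd
    push Not at hd
    obtain ⟨hkl, -⟩ := hd
    have hki : l = i := by
      rcases third hij him hjm l with e | e | e
      · exact e
      · exact absurd (hkl.trans e) hk
      · exact absurd e hl
    obtain ⟨v', k', hh', hk', h0', h1', p'⟩ := rg_of h ho hr ci
    have hd' : Diff u l v' k' := by
      rintro ⟨e, -⟩
      exact hk' (e.symm.trans hki)
    obtain ⟨D, hD, q0, q1, q2⟩ := sinkF1 h ho hjm hij.symm him.symm hs
      (not_cen hjm hij.symm him.symm cj) hl hk' hd' g0 h0' g1 h1' q p'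
    exact ⟨D, hD, forall3 hij him hjm q2 q0 q1⟩

/-- the second tiny cost lemma -/
lemma sel_t2 {L : Set E} {I : Fin 3 → E} (h : Cfg L I) (ho : OneSide L I) {i j m : Fin 3}
    (hij : i ≠ j) (him : i ≠ m) (hjm : j ≠ m) {r s t : Bool} (hr : Strong L I i (sb r))
    (hs : Strong L I j (sb s)) (ht : Strong L I m (sb t)) (ci : ¬ Cen I i) (cj : ¬ Cen I j)
    (cm : Cen I m) (h1 : I i m = 0) (h2 : I j m = 0) (hab : |I j i| ≤ |I i j|) : Out L I := by
  have hb0 : I i j ≠ 0 := by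
    intro h0
    have := not_cen hij him hjm ci
    rw [h0, h1, abs_zero] at this
    linarith
  have ha0 : I j i ≠ 0 := by
    intro h0
    have := not_cen hij.symm hjm him cj
    rw [h0, h2, abs_zero] at this
    linarith
  -- the edge for the axis `m`
  obtain ⟨v, hv1, hv2, hv3⟩ := exists_v hij him hjm false (sgB (I i j)) t
  have e : sg v j * I i j = |I i j| := by rw [sg_eq hv2, sgB_mul]
  have em : sg v m = sb t := sg_eq hv3
  have p : EP2 L v i (1 / 4) (QA L I m) := by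
    apply ep2_of_tiny _ (by norm_num)
    intro ε hε
    obtain ⟨w, hw1, hw2⟩ := t2 h (isSign_sg v) hij him hjm h1 h2 (cm i him) (cm j hjm) e hb0
      (hr.1 j hij.symm) hab hε
    rw [em] at hw1
    exact ⟨w, qa_of ho ht hw1, hw2⟩
  -- the near edge for the axis `j`
  obtain ⟨u, hh, g0, g1, q⟩ := near h ho hij.symm hjm him hs ha0
    (by rw [h2, abs_zero]; exact abs_nonneg _)
  have hd : Diff u m v i := by
    rintro ⟨e, -⟩
    exact him e.symm
  obtain ⟨D, hD, q0, q1, q2⟩ := sinkF1 h ho hij him hjm hr (not_cen hij him hjm ci) hjm.symm him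
    hd g0 (by norm_num : (0 : ℝ) ≤ 1 / 4) g1 (by norm_num) q p
  exact ⟨D, hD, forall3 hij him hjm q0 q1 q2⟩

/-- one axis is centered -/
lemma sel_nnc {L : Set E} {I : Fin 3 → E} (h : Cfg L I) (ho : OneSide L I) {i j m : Fin 3}
    (hij : i ≠ j) (him : i ≠ m) (hjm : j ≠ m) {r s t : Bool} (hr : Strong L I i (sb r))
    (hs : Strong L I j (sb s)) (ht : Strong L I m (sb t)) (ci : ¬ Cen I i) (cj : ¬ Cen I j)
    (cm : Cen I m) : Out L I := by
  by_cases h1 : I i m = 0
  · by_cases h2 : I j m = 0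
    · rcases le_total |I j i| |I i j| with hab | hab
      · exact sel_t2 h ho hij him hjm hr hs ht ci cj cm h1 h2 hab
      · exact sel_t2 h ho hij.symm hjm him hs hr ht cj ci cm h2 h1 hab
    · exact sinkF4 h ho hij.symm hjm him hs (abs_pos.2 h2) (rg_of h ho hr ci)
        (fl_of h ho ht cm)
  · exact sinkF4 h ho hij him hjm hr (abs_pos.2 h1) (rg_of h ho hs cj) (fl_of h ho ht cm)

/-- two axes are centered -/
lemma sel_ncc {L : Set E} {I : Fin 3 → E} (h : Cfg L I) (ho : OneSide L I) {i j m : Fin 3}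
    (hij : i ≠ j) (him : i ≠ m) (hjm : j ≠ m) {r s t : Bool} (hr : Strong L I i (sb r))
    (hs : Strong L I j (sb s)) (ht : Strong L I m (sb t)) (ci : ¬ Cen I i) (cj : Cen I j)
    (cm : Cen I m) : Out L I := by
  obtain ⟨v, k, u, l, a1, a2, a3, a4, a5⟩ := t1pair h ho hij him hjm hs ht cj cm
  obtain ⟨D, hD, q0, q1, q2⟩ := sinkF1 h ho hij him hjm hr (not_cen hij him hjm ci) a1 a2 a3
    (by norm_num : (0 : ℝ) ≤ 1 / 4) (by norm_num : (0 : ℝ) ≤ 1 / 4) (by norm_num) (by norm_num)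
    (a4 _ (by norm_num)) (a5 _ (by norm_num))
  exact ⟨D, hD, forall3 hij him hjm q0 q1 q2⟩

lemma ccc_tiny {L : Set E} {I : Fin 3 → E} (h : Cfg L I) (ho : OneSide L I) {i j m : Fin 3}
    (hij : i ≠ j) (him : i ≠ m) (hjm : j ≠ m) {s : Bool} (hs : Strong L I j (sb s))
    (ci : Cen I i) (cj : Cen I j) (cm : Cen I m) {v : Fin 8} (hv : bit v j = s) {ε : ℝ}
    (hε : 0 < ε) :
    ∃ w, QA L I j w ∧ ∀ τ, ε ≤ τ → τ ≤ 1 - ε → Serve L (edgePt (sg v) m τ) w := by
  obtain ⟨w, hw1, hw2⟩ := t1a h (isSign_sg v) hij him hjm (cj i hij) (cj m hjm.symm)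
    (cm i him) (cm j hjm) (by rw [ci m him.symm, ci j hij.symm]; simp) hε
  rw [sg_eq hv] at hw1
  exact ⟨w, qa_of ho hs hw1, hw2⟩

/-- all axes are centered -/
lemma sel_ccc {L : Set E} {I : Fin 3 → E} (h : Cfg L I) (ho : OneSide L I) {r s t : Bool}
    (hr : Strong L I 0 (sb r)) (hs : Strong L I 1 (sb s)) (ht : Strong L I 2 (sb t))
    (ci : Cen I 0) (cj : Cen I 1) (cm : Cen I 2) : Out L I := by
  obtain ⟨z0, hz0⟩ := h.int
  obtain ⟨R, hR0, hR1, hR2⟩ := exists_v0 r s t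
  have hT : treeOK (tr 6672) := (codes_ok 6672 (by simp [codes])).1
  have n0 : ntree (tr 6672) 2 2 = true := by decide +kernel
  have n1 : ntree (tr 6672) 4 0 = true := by decide +kernel
  have n2 : ntree (tr 6672) 1 1 = true := by decide +kernel
  have e0 : bit 2 0 = false := by decide
  have e1 : bit 4 1 = false := by decide
  have e2 : bit 1 2 = false := by decide
  have b0 : bit (rel R 2) 0 = r := by rw [bit_rel, hR0, e0, Bool.false_xor]
  have b1 : bit (rel R 4) 1 = s := by rw [bit_rel, hR1, e1, Bool.false_xor]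
  have b2 : bit (rel R 1) 2 = t := by rw [bit_rel, hR2, e2, Bool.false_xor]
  obtain ⟨D, hD1, hD2, -, hD4⟩ := tree_net h hz0 R (tr 6672) (fun v => 8 - dst (tr 6672) 8 v)
    (fun v hv => hT.lev v hv) hT.2 (fun _ => 0) (fun _ _ => 0) (fun _ _ => le_rfl)
    (fun _ => le_rfl) (fun _ => one_pos) (by intro v _; simp) (fun _ => 1 / 4)
    (by rw [Fin.sum_univ_three]; norm_num) (by intro k; simp)
    (fun v k w => ((v = 2 ∧ k = 2) → QA L I 0 w) ∧ ((v = 4 ∧ k = 0) → QA L I 1 w) ∧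
      ((v = 1 ∧ k = 1) → QA L I 2 w))
    (by
      intro v k _ ε hε
      by_cases c0 : v = 2 ∧ k = 2
      · obtain ⟨rfl, rfl⟩ := c0
        obtain ⟨w, hw1, hw2⟩ := ccc_tiny h ho (i := 1) (j := 0) (m := 2) (by decide)
          (by decide) (by decide) hr cj ci cm b0 hε
        exact ⟨w, ⟨fun _ => hw1, fun hc => absurd hc (by decide),
          fun hc => absurd hc (by decide)⟩, fun τ t1 t2 => hw2 τ (by linarith) (by linarith)⟩
      by_cases c1 : v = 4 ∧ k = 0
      · obtain ⟨rfl, rfl⟩ := c1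
        obtain ⟨w, hw1, hw2⟩ := ccc_tiny h ho (i := 2) (j := 1) (m := 0) (by decide)
          (by decide) (by decide) hs cm cj ci b1 hε
        exact ⟨w, ⟨fun hc => absurd hc (by decide), fun _ => hw1,
          fun hc => absurd hc (by decide)⟩, fun τ t1 t2 => hw2 τ (by linarith) (by linarith)⟩
      by_cases c2 : v = 1 ∧ k = 1
      · obtain ⟨rfl, rfl⟩ := c2
        obtain ⟨w, hw1, hw2⟩ := ccc_tiny h ho (i := 0) (j := 2) (m := 1) (by decide)
          (by decide) (by decide) ht ci cm cj b2 hε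
        exact ⟨w, ⟨fun hc => absurd hc (by decide), fun hc => absurd hc (by decide),
          fun _ => hw1⟩, fun τ t1 t2 => hw2 τ (by linarith) (by linarith)⟩
      obtain ⟨w, hw⟩ := reg h (isSign_sg (rel R v)) k hε
      exact ⟨w, ⟨fun hc => absurd hc c0, fun hc => absurd hc c1, fun hc => absurd hc c2⟩,
        fun τ t1 t2 => hw τ (by linarith) (by linarith)⟩)
  refine ⟨D, ⟨hD1, fun v k τ t1 t2 => ?_⟩, ?_⟩
  · obtain ⟨d, hd, hs⟩ := hD2 (rel R v) k τ t1 t2
    rw [rel_rel] at hs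
    exact ⟨d, hd, hs⟩
  · intro k
    fin_cases k
    · obtain ⟨d, hd, hq, -, -⟩ := hD4 _ _ n0
      exact ⟨d, hd, hq ⟨rfl, rfl⟩⟩
    · obtain ⟨d, hd, -, hq, -⟩ := hD4 _ _ n1
      exact ⟨d, hd, hq ⟨rfl, rfl⟩⟩
    · obtain ⟨d, hd, -, -, hq⟩ := hD4 _ _ n2
      exact ⟨d, hd, hq ⟨rfl, rfl⟩⟩

/-- the selection -/
theorem selection {L : Set E} {I : Fin 3 → E} (h : Cfg L I) (ho : OneSide L I) : Out L I := by
  by_cases hn : ∃ i, ∀ s, ¬ Strong L I i (sb s)
  · obtain ⟨i, hi⟩ := hn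
    exact sel_free h ho hi
  push Not at hn
  obtain ⟨r, hr⟩ := hn 0
  obtain ⟨s, hs⟩ := hn 1
  obtain ⟨t, ht⟩ := hn 2
  have h01 : (0 : Fin 3) ≠ 1 := by decide
  have h02 : (0 : Fin 3) ≠ 2 := by decide
  have h12 : (1 : Fin 3) ≠ 2 := by decide
  by_cases c0 : Cen I 0 <;> by_cases c1 : Cen I 1 <;> by_cases c2 : Cen I 2
  · exact sel_ccc h ho hr hs ht c0 c1 c2
  · exact sel_ncc h ho h02.symm h12.symm h01 ht hr hs c2 c0 c1
  · exact sel_ncc h ho h01.symm h12 h02 hs hr ht c1 c0 c2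
  · exact sel_nnc h ho h12 h01.symm h02.symm hs ht hr c1 c2 c0
  · exact sel_ncc h ho h01 h02 h12 hr hs ht c0 c1 c2
  · exact sel_nnc h ho h02 h01 h12.symm hr ht hs c0 c2 c1
  · exact sel_nnc h ho h01 h02 h12 hr hs ht c0 c1 c2
  · exact sel_nnn h ho h01 h02 h12 hr hs ht c0 c1 c2

/-- Every body in the normal form is illuminated by 13 directions. -/
theorem illum_cfg {L : Set E} {I : Fin 3 → E} (h : Cfg L I) (ho : OneSide L I) :
    Illum L 13 := by
  obtain ⟨D, hD, hq⟩ := selection h ho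
  apply Illum.of_finset D hD.1
  intro x hx
  rcases reduction h hx with ⟨k, s, hs, rfl⟩ | ⟨v, k, τ, t0, t1, hy⟩
  · obtain ⟨d, hd, hdq⟩ := hq k
    exact ⟨d, hd, hdq s hs⟩
  · obtain ⟨d, hd, hds⟩ := hD.2 v k τ t0 t1
    exact ⟨d, hd, serve_of_closure h.conv hy hds⟩

end Pool.Agent.Lib.MP_5e7226_co.GB
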