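import Pool.Agent.Lib.MP_5e7226_co.GB.Net

set_option autoImplicit false

open Set Filter Topology

namespace Pool.Agent.Lib.MP_5e7226_co.GB

/-- the axis through which the path from the slot `(b, k)` enters the root -/
def ent (out : Fin 8 → Fin 3) : ℕ → Fin 8 → Fin 3 → Fin 3
  | 0, _, k => k
  | n + 1, b, k => if b = 0 then k else ent out n (flip b (out b)) (out b)

/-- `v` is on the path from `b` to the root -/
def onp (out : Fin 8 → Fin 3) : ℕ → Fin 8 → Fin 8 → Bool
  | 0, _, _ => false
  | n + 1, b, v => if b = 0 then false else (b == v) || onp out n (flip b (out b)) v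

/-- distance to the root -/
def dst (out : Fin 8 → Fin 3) : ℕ → Fin 8 → ℕ
  | 0, _ => 0
  | n + 1, b => if b = 0 then 0 else dst out n (flip b (out b)) + 1

/-- indicator -/
def boo (b : Bool) : ℕ := if b then 1 else 0

/-- a non-tree slot whose path is consistent -/
def slotOK (out : Fin 8 → Fin 3) (b : Fin 8) (k : Fin 3) : Prop :=
  child out b k = false ∧ child out (flip b k) k = false ∧
  (∀ v, v ≠ 0 → ∑ l, (if l = out v then 0 else
      if child out v l then boo (onp out 8 b (flip v l)) else boo (v == b && l == k))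
      ≤ boo (onp out 8 b v)) ∧
  ∀ l, (if child out 0 l then boo (onp out 8 b (flip 0 l)) else
    boo (0 == b && l == k)) ≤ boo (ent out 8 b k == l)

instance (out : Fin 8 → Fin 3) (b : Fin 8) (k : Fin 3) : Decidable (slotOK out b k) := by
  unfold slotOK; infer_instance

/-- a spanning tree -/
def treeOK (out : Fin 8 → Fin 3) : Prop :=
  (∀ v, v ≠ 0 → dst out 8 (flip v (out v)) < dst out 8 v) ∧
  (Finset.univ.filter
      (fun p : Fin 8 × Fin 3 => ntree out p.1 p.2 = true)).card ≤ 5

instance (out : Fin 8 → Fin 3) : Decidable (treeOK out) := by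
  unfold treeOK; infer_instance

/-- the tree with code `c` -/
def tr (c : ℕ) (v : Fin 8) : Fin 3 := ⟨c / 4 ^ v.val % 4 % 3, Nat.mod_lt _ (by norm_num)⟩

/-- the codes of the trees -/
def codes : List ℕ := [6672, 25168, 38928, 37440, 37396, 9552, 10896, 6752, 25112, 38416, 18512, 17040, 34112, 33344, 33812, 8792, 6784, 17028, 26640, 33296, 34324, 25152, 35088, 16976]

lemma codes_ok : ∀ c ∈ codes, treeOK (tr c) ∧ ∀ b k, child (tr c) b k = false →
    child (tr c) (flip b k) k = false → slotOK (tr c) b k := by decide +kernel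

/-- good pair of slots in a tree -/
def good (c : ℕ) (i : Fin 3) (b : Fin 8) (k : Fin 3) (d : Fin 8) (l : Fin 3) : Bool :=
  !child (tr c) b k && !child (tr c) (flip b k) k && !child (tr c) d l &&
  !child (tr c) (flip d l) l && (ent (tr c) 8 b k != i) && (ent (tr c) 8 d l != i) &&
  (ent (tr c) 8 b k != ent (tr c) 8 d l)

/-- good pair of slots in a tree, up to the orientation of both edges -/
def good4 (c : ℕ) (i : Fin 3) (v : Fin 8) (k : Fin 3) (u : Fin 8) (l : Fin 3) : Bool :=
  good c i v k u l || good c i (flip v k) k u l ||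
      good c i v k (flip u l) l || good c i (flip v k) k (flip u l) l

lemma f1 : ∀ i j m : Fin 3, i ≠ j → i ≠ m → j ≠ m → ∀ v k u l, k ≠ j → l ≠ m →
    ¬ (k = l ∧ (v = u ∨ flip v k = u)) →
    (codes.any fun c => good4 c i v k u l) = true := by decide +kernel

/-- good pair with prescribed axes at the root -/
def goodf (c : ℕ) (j m : Fin 3) (b : Fin 8) (k : Fin 3) (d : Fin 8) (l : Fin 3) : Bool :=
  !child (tr c) b k && !child (tr c) (flip b k) k && !child (tr c) d l &&
  !child (tr c) (flip d l) l && (ent (tr c) 8 b k == m) && (ent (tr c) 8 d l == j)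

lemma f4 : ∀ i j m : Fin 3, i ≠ j → i ≠ m → j ≠ m → ∀ v k, k ≠ j → ∀ s : Bool,
    (codes.any fun c => decide (∃ u l, bit u m = s ∧ l ≠ m ∧
      ¬ (k = l ∧ (v = u ∨ flip v k = u)) ∧
      (goodf c j m v k u l || goodf c j m (flip v k) k u l) = true)) = true := by decide +kernel

end Pool.Agent.Lib.MP_5e7226_co.GB
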